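import Pool.Agent.H45Sch.Two

set_option autoImplicit false
set_option linter.unusedSectionVars false
set_option linter.unusedSimpArgs false

namespace H45Sch

open PowerSeries H42Sch

variable {α : Type} [DecidableEq α]

/-- factorizations with trivial `a`-part of `S`, levels arbitrary -/
structure Gs (a : α) (n : ℕ) (c P S : List α → ℤ) (N : ℕ) : Prop where
  c_nonneg : ∀ w, 0 ≤ c w
  npos : 1 ≤ n
  fact : ∀ w, w ≠ [] → c w = conv w P (R S)
  hP : aser a P = ∑ i ∈ Finset.range n, (X : ℤ⟦X⟧) ^ i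
  hS : aser a S = 1
  fin : ∀ w, N ≤ w.length → P w = 0 ∧ S w = 0

section gs

variable {a : α} {n : ℕ} {c P S : List α → ℤ} {N : ℕ}

lemma Gs.P_aw (h : Gs a n c P S N) (k : ℕ) : P (aw a k) = if k < n then 1 else 0 := by
  rw [← coeff_aser a P, h.hP, map_sum]
  simp_rw [coeff_X_pow]
  rw [Finset.sum_ite_eq]
  simp

lemma Gs.S_aw (h : Gs a n c P S N) (k : ℕ) : S (aw a k) = if k = 0 then 1 else 0 := by
  rw [← coeff_aser a S, h.hS, coeff_one]

lemma Gs.I1 (h : Gs a n c P S N) (b : α) (m : ℕ) (w : List α) :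
    c (abw a b m w) = (if m < n then S w else S (abw a b (m - n) w)) - S (abw a b m w) +
      conv w (fun v => P (abw a b m v)) (R S) := by
  rw [h.fact _ (by simp [abw]), conv_abw_gen, bser_R]
  congr 1
  have h2 : (∑ i ∈ Finset.range n, (X : ℤ⟦X⟧) ^ i) * (1 - X) = 1 - X ^ n := geom_sum_mul_neg _ _
  have h3 : aser a P * (C (S w) - (1 - X) * bser a b S w) =
      aser a P * C (S w) - (bser a b S w - X ^ n * bser a b S w) := by
    have h4 : aser a P * ((1 - X) * bser a b S w) = (1 - X ^ n) * bser a b S w := by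
      rw [← mul_assoc, h.hP, h2]
    rw [mul_sub, h4]; ring
  rw [h3, map_sub, map_sub, coeff_mul_C, coeff_X_pow_mul', coeff_aser, h.P_aw]
  simp only [coeff_bser]
  by_cases hm : m < n
  · rw [if_pos hm, if_pos hm, if_neg (by omega)]; ring
  · rw [if_neg hm, if_neg hm, if_pos (by omega)]; ring

/-- `T = S(a^m b .) + U` -/
lemma Gs.TU (h : Gs a n c P S N) (b : α) {l : ℕ} (hl : l < n) (t : ℕ) (w : List α) :
    TT S (Ph a b n P l t) w = S (abw a b (l + t*n) w) + Ph a b n c l t w := by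
  induction t with
  | zero =>
    have h1 := h.I1 b l w
    rw [if_pos hl] at h1
    have h2 : Ph a b n P l 0 = fun v => P (abw a b l v) := by
      ext v; exact Ph_zero ..
    rw [TT, h2, Ph_zero, zero_mul, add_zero]
    linarith
  | succ t ih =>
    have h1 := h.I1 b (l + (t+1)*n) w
    rw [if_neg (by nlinarith)] at h1
    have h0 : l + (t+1)*n - n = l + t*n := by
      rw [add_mul, one_mul]; omega
    rw [h0] at h1
    have h2 : Ph a b n P l (t+1) = fun v => Ph a b n P l t v + P (abw a b (l + (t+1)*n) v) := by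
      ext v; exact Ph_succ ..
    rw [TT, h2, conv_add_left, Ph_succ]
    rw [TT] at ih
    linarith

lemma Gs.T_nonneg (h : Gs a n c P S N) (b : α) {l : ℕ} (hl : l < n) {t : ℕ}
    (ht : N ≤ l + t*n ∨ ∀ w, 0 ≤ S w) (w : List α) : 0 ≤ TT S (Ph a b n P l t) w := by
  rw [h.TU b hl]
  have h1 : 0 ≤ Ph a b n c l t w := Finset.sum_nonneg (fun _ _ => h.c_nonneg _)
  rcases ht with ht | ht
  · rw [(h.fin _ (by rw [abw_length]; omega)).2]; linarith
  · have := ht (abw a b (l + t*n) w)
    linarith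

lemma Gs.Ph_lv {d : ℕ} (hPd : ∀ u, d < lv a u → P u = 0) {b : α} (hb : b ≠ a)
    (l t : ℕ) (v : List α) (hv : d ≤ lv a v) : Ph a b n P l t v = 0 := by
  apply Finset.sum_eq_zero
  intro j _
  exact hPd _ (by rw [lv_abw hb]; omega)

lemma Gs.Ph_fin (h : Gs a n c P S N) (b : α) (l t : ℕ) (v : List α)
    (hv : N ≤ v.length) : Ph a b n P l t v = 0 := by
  apply Finset.sum_eq_zero
  intro j _
  exact (h.fin _ (by rw [abw_length]; omega)).1

/-- shape of a-parts -/
lemma Gs.shape (h : Gs a n c P S N) {F : List α → ℤ} (hF : ∀ v, N ≤ v.length → F v = 0)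
    (hT : ∀ w, 0 ≤ TT S F w) : ∃ E, ∀ k, F (aw a k) = if k < E then 1 else 0 := by
  obtain ⟨h1, h2⟩ := theta_aw_R h.hS (aser a F)
  obtain ⟨e, he⟩ := seqG (fun k => F (aw a k)) 0 N (fun k hk => hF _ (by simpa using hk))
    (by
      have h3 := hT (aw a 0)
      rw [TT, conv_aw, ← theta_aw, h1, h.S_aw, coeff_aser] at h3
      simp only [if_true] at h3 ⊢
      linarith)
    (by
      intro k
      have h3 := hT (aw a (k+1))
      rw [TT, conv_aw, ← theta_aw, h2, h.S_aw, coeff_aser, coeff_aser] at h3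
      simp only [Nat.succ_ne_zero, if_false] at h3 ⊢
      linarith)
  refine ⟨e, ?_⟩
  intro k
  have h3 := he k
  simp only [Nat.zero_le, if_true] at h3
  rw [h3]
  by_cases hk : k < e
  · rw [if_pos hk, if_neg (by omega)]; ring
  · rw [if_neg hk, if_pos (by omega)]; ring

/-- values of `T` at `a^i b w` -/
lemma Gs.T_abw (h : Gs a n c P S N) {F : List α → ℤ} (hF : ∀ v, 2 ≤ lv a v → F v = 0)
    {E : ℕ} (hE : ∀ k, F (aw a k) = if k < E then 1 else 0) {b : α} (hb : b ≠ a) (i : ℕ)
    (w : List α) : TT S F (abw a b i w) =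
      (if i < E then S w else S (abw a b (i - E) w)) + theta a w (pser a b F i) (R S) := by
  rw [TT, conv_abw hb i w F (R S) hF, bser_R]
  have h1 : aser a F * (1 - X) = 1 - X ^ E := by
    have h2 : (∑ i ∈ Finset.range E, (X : ℤ⟦X⟧) ^ i) * (1 - X) = 1 - X ^ E := geom_sum_mul_neg _ _
    rw [← h2]
    congr 1
    ext k
    rw [coeff_aser, hE, map_sum]
    simp_rw [coeff_X_pow]
    rw [Finset.sum_ite_eq]
    simp
  have h3 : aser a F * (C (S w) - (1 - X) * bser a b S w) =
      aser a F * C (S w) - (bser a b S w - X ^ E * bser a b S w) := by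
    have h4 : aser a F * ((1 - X) * bser a b S w) = (1 - X ^ E) * bser a b S w := by
      rw [← mul_assoc, h1]
    rw [mul_sub, h4]; ring
  rw [h3, map_sub, map_sub, coeff_mul_C, coeff_X_pow_mul', coeff_aser, hE]
  simp only [coeff_bser]
  by_cases hm : i < E
  · rw [if_pos hm, if_pos hm, if_neg (by omega)]; ring
  · rw [if_neg hm, if_neg hm, if_pos (by omega)]; ring

lemma Gs.big (h : Gs a n c P S N) (m : ℕ) :
    m % n < n ∧ N ≤ m % n + (m / n + N) * n ∧ m % n + (m / n) * n = m := by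
  have hn := h.npos
  refine ⟨Nat.mod_lt _ (by omega), ?_, ?_⟩
  · have : N ≤ N * n := Nat.le_mul_of_pos_right N (by omega)
    rw [add_mul]; omega
  · have := Nat.mod_add_div m n
    rw [mul_comm] at this
    exact this

/-- interval shape of a row of `F` when the a-part of `F` is long -/
lemma Gs.row0 (h : Gs a n c P S N) {F : List α → ℤ} (hF : ∀ v, 2 ≤ lv a v → F v = 0)
    (hFN : ∀ v, N ≤ v.length → F v = 0) (hT : ∀ w, 0 ≤ TT S F w)
    {E : ℕ} (hE : ∀ k, F (aw a k) = if k < E then 1 else 0) {b : α} (hb : b ≠ a)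
    {i : ℕ} (hi : i < E) : ∃ e, ∀ k, coeff k (pser a b F i) =
      (if 0 ≤ k then 1 else 0) - (if e ≤ k then 1 else 0) := by
  obtain ⟨h1, h2⟩ := theta_aw_R h.hS (pser a b F i)
  apply seqG (fun k => coeff k (pser a b F i)) 0 N
  · intro k hk
    rw [coeff_pser]
    exact hFN _ (by simp; omega)
  · have h3 := hT (abw a b i (aw a 0))
    rw [h.T_abw hF hE hb, if_pos hi, h1, h.S_aw] at h3
    simp only [if_true] at h3 ⊢
    linarith
  · intro k
    have h3 := hT (abw a b i (aw a (k+1)))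
    rw [h.T_abw hF hE hb, if_pos hi, h2, h.S_aw] at h3
    simp only [Nat.succ_ne_zero, if_false] at h3 ⊢
    linarith

/-- values of `T` at powers of `a` -/
lemma Gs.T_aw (h : Gs a n c P S N) {F : List α → ℤ}
    {E : ℕ} (hE : ∀ k, F (aw a k) = if k < E then 1 else 0) (k : ℕ) :
    TT S F (aw a k) = if k = E then 1 else 0 := by
  obtain ⟨h1, h2⟩ := theta_aw_R h.hS (aser a F)
  cases k with
  | zero =>
    rw [TT, conv_aw, ← theta_aw, h1, h.S_aw, coeff_aser, hE]
    by_cases hE0 : E = 0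
    · rw [if_pos rfl, if_neg (by omega), if_pos hE0.symm]; ring
    · rw [if_pos rfl, if_pos (by omega), if_neg (by omega)]; ring
  | succ k =>
    rw [TT, conv_aw, ← theta_aw, h2, h.S_aw, coeff_aser, coeff_aser, hE, hE, if_neg (by omega)]
    by_cases h3 : k + 1 = E
    · rw [if_pos (by omega), if_neg (by omega), if_pos h3]; ring
    · rw [if_neg h3]
      by_cases h4 : k < E
      · rw [if_pos h4, if_pos (by omega)]; ring
      · rw [if_neg h4, if_neg (by omega)]; ring


end gs

end H45Sch
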