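import Pool.Agent.H45Sch.Uniq

set_option autoImplicit false
set_option linter.unusedSectionVars false
set_option linter.unusedSimpArgs false

namespace H45Sch

open PowerSeries H42Sch

variable {α : Type} [DecidableEq α]

lemma word_cases_right (a : α) (w : List α) :
    (∃ l, w = aw a l) ∨ (∃ b l v, b ≠ a ∧ w = v ++ b :: aw a l) := by
  rcases word_cases a w.reverse with ⟨l, hl⟩ | ⟨b, l, v, hb, hv⟩
  · left
    refine ⟨l, ?_⟩
    have := congrArg List.reverse hl
    rw [List.reverse_reverse, aw_reverse] at this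
    exact this
  · right
    refine ⟨b, l, v.reverse, hb, ?_⟩
    have := congrArg List.reverse hv
    rw [List.reverse_reverse] at this
    rw [this]
    simp [abw, aw]

/-- the functional `H ↦ theta a V H (R S)` depends only on the constant coefficient -/
def TH (a : α) (S : List α → ℤ) (V : List α) : Prop :=
  ∀ H : ℤ⟦X⟧, theta a V H (R S) = - S V * coeff 0 H

lemma TH_nil (a : α) (S : List α → ℤ) : TH a S [] := by
  intro H
  rw [theta, R]; ring

lemma TH_of {a b0 : α} (hb0 : b0 ≠ a) {S : List α → ℤ} {v : List α} (hv : S v = 0) (y : ℕ)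
    (hy : ∀ x, x < y → S (aw a x ++ b0 :: v) = 0) : TH a S (aw a y ++ b0 :: v) := by
  induction y with
  | zero =>
    intro H
    rw [aw_zero, List.nil_append, theta, if_neg hb0, R, hv]; ring
  | succ y ih =>
    intro H
    have h1 := ih (fun x hx => hy x (by omega)) (shift H)
    have h2 := hy y (by omega)
    rw [aw_succ, List.cons_append, theta, if_pos rfl, h1, R, h2]
    ring

section gs

variable {a : α} {n : ℕ} {c P S : List α → ℤ} {N : ℕ}

lemma Gs.Pr_step (h : Gs a n c P S N) (b : α) {i : ℕ} (hi : n ≤ i) (v : List α) :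
    P (abw a b i v) = Pr a b n P i v - Pr a b n P (i - n) v := by
  have hn := h.npos
  obtain ⟨j, rfl⟩ : ∃ j, i = j + n := ⟨i - n, by omega⟩
  have e1 : (j + n) % n = j % n := Nat.add_mod_right j n
  have e2 : (j + n) / n = j / n + 1 := Nat.add_div_right j (by omega)
  have e3 : j % n + (j / n + 1) * n = j + n := by
    have := Nat.mod_add_div j n
    rw [add_mul, one_mul, mul_comm (j / n) n]; omega
  rw [Pr, Pr, e1, e2, Ph_succ, Nat.add_sub_cancel, e3]
  ring

lemma Gs.Pr_small (b : α) {i : ℕ} (hi : i < n) (v : List α) :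
    P (abw a b i v) = Pr a b n P i v := by
  rw [Pr, Nat.mod_eq_of_lt hi, Nat.div_eq_of_lt hi, Ph_zero]

lemma Gs.Pr_shape (h : Gs a n c P S N) (hSn : ∀ w, 0 ≤ S w) (b : α) (i : ℕ) :
    ∃ m, ∀ k, Pr a b n P i (aw a k) = if k < m then 1 else 0 := by
  refine h.shape (F := Pr a b n P i) (fun v hv => h.Ph_fin b _ _ v hv) (fun w => ?_)
  rw [h.T_Pr]
  have := h.Pr_c_nonneg b i w
  have := hSn (abw a b i w)
  linarith

lemma ser_diff {F : List α → ℤ} {m M : ℕ}
    (hF : ∀ k, F (aw a k) = (if k < m then 1 else 0) - (if k < M then 1 else 0)) :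
    aser a F * (1 - X) = X ^ M - X ^ m := by
  have h1 : aser a F = (∑ i ∈ Finset.range m, (X : ℤ⟦X⟧) ^ i) -
      ∑ i ∈ Finset.range M, (X : ℤ⟦X⟧) ^ i := by
    ext k
    rw [coeff_aser, hF, map_sub, map_sum, map_sum]
    simp_rw [coeff_X_pow]
    rw [Finset.sum_ite_eq, Finset.sum_ite_eq]
    simp
  rw [h1, sub_mul, geom_sum_mul_neg, geom_sum_mul_neg]
  ring

/-- the value of `c` at `a^i b2 a^r b1 V` -/
lemma Gs.key_c (h : Gs a n c P S N) (hP2 : ∀ u, 2 < lv a u → P u = 0) {b1 b2 : α} (hb1 : b1 ≠ a)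
    (hb2 : b2 ≠ a) {i : ℕ} (hi : n ≤ i) {m M : ℕ}
    (hF : ∀ k, P (abw a b2 i (aw a k)) = (if k < m then 1 else 0) - (if k < M then 1 else 0))
    {V : List α} (hV : TH a S V) (r : ℕ) :
    c (abw a b2 i (abw a b1 r V)) = S (abw a b2 (i - n) (abw a b1 r V)) -
      S (abw a b2 i (abw a b1 r V)) +
      S V * ((if r < m then 1 else 0) - (if r < M then 1 else 0)) +
      ((if m ≤ r then S (abw a b1 (r - m) V) else 0) -
        (if M ≤ r then S (abw a b1 (r - M) V) else 0)) -
      S V * P (abw a b2 i (abw a b1 r [])) := by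
  set F : List α → ℤ := fun v => P (abw a b2 i v) with hFdef
  have hF2 : ∀ u, 2 ≤ lv a u → F u = 0 := by
    intro u hu
    exact hP2 _ (by rw [lv_abw hb2]; omega)
  have hser := ser_diff (a := a) (F := F) hF
  have e1 : aser a F * (C (S V) - (1 - X) * bser a b1 S V) =
      aser a F * C (S V) - (X ^ M * bser a b1 S V - X ^ m * bser a b1 S V) := by
    rw [mul_sub, ← mul_assoc, hser]; ring
  have e2 : coeff 0 (pser a b1 F r) = P (abw a b2 i (abw a b1 r [])) := by
    rw [coeff_pser, aw_zero]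
  rw [h.I1 b2 i, if_neg (by omega), conv_abw hb1 r V F (R S) hF2, bser_R, e1, hV, e2, map_sub,
    map_sub, coeff_mul_C, coeff_X_pow_mul', coeff_X_pow_mul', coeff_aser]
  have e3 : F (aw a r) = (if r < m then 1 else 0) - (if r < M then 1 else 0) := hF r
  rw [e3]
  simp only [coeff_bser]
  ring

/-- the contradiction at `V` -/
lemma Gs.core (h : Gs a n c P S N) (hP2 : ∀ u, 2 < lv a u → P u = 0) (hSn : ∀ w, 0 ≤ S w)
    (hP2n : ∀ u, lv a u = 2 → 0 ≤ P u) {b1 b2 : α} (hb1 : b1 ≠ a)
    (hb2 : b2 ≠ a) {i : ℕ} (hi : n ≤ i) {m M : ℕ} (hmM : m < M)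
    (hF : ∀ k, P (abw a b2 i (aw a k)) = (if k < m then 1 else 0) - (if k < M then 1 else 0))
    {V : List α} (hV : TH a S V) (hVp : 1 ≤ S V)
    (htriv : ∀ r, S (abw a b1 r V) = 0 → ∀ w, S (w ++ b2 :: abw a b1 r V) = 0) : False := by
  have hPn : ∀ r, 0 ≤ P (abw a b2 i (abw a b1 r [])) := by
    intro r
    apply hP2n
    rw [lv_abw hb2, lv_abw hb1]; rfl
  have htriv' : ∀ r, S (abw a b1 r V) = 0 → ∀ j, S (abw a b2 j (abw a b1 r V)) = 0 := by
    intro r hr j
    exact htriv r hr (aw a j)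
  have key : ∀ r, S (abw a b1 r V) = 0 → 0 ≤
      S V * ((if r < m then 1 else 0) - (if r < M then 1 else 0)) +
      ((if m ≤ r then S (abw a b1 (r - m) V) else 0) -
        (if M ≤ r then S (abw a b1 (r - M) V) else 0)) := by
    intro r hr
    have h1 := h.c_nonneg (abw a b2 i (abw a b1 r V))
    rw [h.key_c hP2 hb1 hb2 hi hF hV r, htriv' r hr, htriv' r hr] at h1
    have h2 := mul_nonneg (show 0 ≤ S V by linarith) (hPn r)
    linarith
  by_cases hJ : ∀ r, S (abw a b1 r V) = 0
  · have h1 := key m (hJ m)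
    rw [if_neg (lt_irrefl m), if_pos hmM, if_pos (le_refl m), if_neg (by omega), hJ] at h1
    linarith
  · push Not at hJ
    classical
    have hbd : ∀ r, N ≤ r → S (abw a b1 r V) = 0 := fun r hr =>
      (h.fin _ (by rw [abw_length]; omega)).2
    -- the largest index
    obtain ⟨r, hr, hmax⟩ : ∃ r, S (abw a b1 r V) ≠ 0 ∧ ∀ r', r < r' → S (abw a b1 r' V) = 0 := by
      have hex : ∃ k, ∀ r', k ≤ r' → S (abw a b1 r' V) = 0 := ⟨N, hbd⟩
      obtain ⟨r0, hr0⟩ := hJ
      have h1 := Nat.find_spec hex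
      have h0 : Nat.find hex ≠ 0 := by
        intro h0
        rw [h0] at h1
        exact hr0 (h1 r0 (Nat.zero_le _))
      have h2 := Nat.find_min hex (m := Nat.find hex - 1) (by omega)
      push Not at h2
      obtain ⟨r, hr1, hr2⟩ := h2
      refine ⟨r, hr2, fun r' hr' => h1 r' ?_⟩
      have : ¬ Nat.find hex ≤ r := fun h3 => hr2 (h1 r h3)
      omega
    have h1 := key (r + M) (hmax _ (by omega))
    rw [if_neg (by omega), if_neg (by omega), if_pos (by omega), if_pos (by omega),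
      Nat.add_sub_cancel, hmax (r + M - m) (by omega)] at h1
    have h2 := hSn (abw a b1 r V)
    have h3 : S (abw a b1 r V) = 0 := by linarith
    exact hr h3

/-- tails after which `S` vanishes -/
lemma Gs.tails (h : Gs a n c P S N) (hP2 : ∀ u, 2 < lv a u → P u = 0) (hSn : ∀ w, 0 ≤ S w)
    (hP2n : ∀ u, lv a u = 2 → 0 ≤ P u) {b2 : α}
    (hb2 : b2 ≠ a) {i : ℕ} (hi : n ≤ i) {m M : ℕ} (hmM : m < M)
    (hF : ∀ k, P (abw a b2 i (aw a k)) = (if k < m then 1 else 0) - (if k < M then 1 else 0)) :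
    ∀ (d : ℕ) (b0 : α) (v : List α), b0 ≠ a → N ≤ lv a (b0 :: v) + d → S v = 0 →
      ∀ w, S (w ++ b0 :: v) = 0 := by
  intro d
  induction d with
  | zero =>
    intro b0 v _ hN _ w
    have h1 := lv_le_length a (b0 :: v)
    exact (h.fin _ (by rw [List.length_append]; omega)).2
  | succ d ih =>
    intro b0 v hb0 hN hv
    have hrow : ∀ y, S (aw a y ++ b0 :: v) = 0 := by
      by_contra hcon
      push Not at hcon
      classical
      have hy := Nat.find_spec hcon
      have hmin : ∀ x, x < Nat.find hcon → S (aw a x ++ b0 :: v) = 0 := by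
        intro x hx
        by_contra hne
        exact Nat.find_min hcon hx hne
      set y := Nat.find hcon with hydef
      have hTH := TH_of hb0 hv y hmin
      have hpos : 1 ≤ S (aw a y ++ b0 :: v) := by
        have := hSn (aw a y ++ b0 :: v)
        omega
      refine h.core hP2 hSn hP2n hb2 hb2 hi hmM hF hTH hpos ?_
      intro r hr
      apply ih b2 _ hb2 _ hr
      rw [lv_cons_ne hb2, lv_abw hb2, lv_append, lv_aw]
      omega
    intro w
    rcases word_cases_right a w with ⟨l, rfl⟩ | ⟨b1, l, w', hb1, rfl⟩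
    · exact hrow l
    · rw [List.append_assoc, List.cons_append]
      apply ih b1 _ hb1 _ (hrow l)
      rw [lv_cons_ne hb1, lv_append, lv_aw]
      omega

/-- the pure parts are increasing -/
lemma Gs.mono (h : Gs a n c P S N) (hP2 : ∀ u, 2 < lv a u → P u = 0) (hSn : ∀ w, 0 ≤ S w)
    (hP2n : ∀ u, lv a u = 2 → 0 ≤ P u) {b2 : α}
    (hb2 : b2 ≠ a) {i : ℕ} (hi : n ≤ i) {m M : ℕ}
    (hF : ∀ k, P (abw a b2 i (aw a k)) = (if k < m then 1 else 0) - (if k < M then 1 else 0)) :
    M ≤ m := by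
  by_contra hcon
  push Not at hcon
  have hS0 : S [] = 1 := by
    have := h.S_aw 0
    simpa using this
  refine h.core hP2 hSn hP2n hb2 hb2 hi hcon hF (TH_nil a S) (by rw [hS0]) ?_
  intro r hr
  exact h.tails hP2 hSn hP2n hb2 hi hcon hF N b2 _ hb2 (by omega) hr

/-- **positivity of `P`** -/
theorem Gs.P_nonneg (h : Gs a n c P S N) (hP2 : ∀ u, 2 < lv a u → P u = 0)
    (hSn : ∀ w, 0 ≤ S w) (hP2n : ∀ u, lv a u = 2 → 0 ≤ P u) : ∀ w, 0 ≤ P w := by
  intro w
  rcases Nat.lt_or_ge (lv a w) 1 with h1 | h1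
  · obtain ⟨k, rfl⟩ := level_zero (a := a) (u := w) (by omega)
    rw [h.P_aw]
    split_ifs <;> norm_num
  · rcases Nat.lt_or_ge (lv a w) 2 with h2 | h2
    · obtain ⟨b, i, k, hb, rfl⟩ := level_one (a := a) (u := w) (by omega)
      rcases Nat.lt_or_ge i n with hi | hi
      · rw [Gs.Pr_small (a := a) (P := P) b hi]
        obtain ⟨m, hm⟩ := h.Pr_shape hSn b i
        rw [hm]
        split_ifs <;> norm_num
      · obtain ⟨m, hm⟩ := h.Pr_shape hSn b i
        obtain ⟨M, hM⟩ := h.Pr_shape hSn b (i - n)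
        have hF : ∀ k, P (abw a b i (aw a k)) = (if k < m then 1 else 0) -
            (if k < M then 1 else 0) := by
          intro k
          rw [h.Pr_step b hi, hm, hM]
        have hle := h.mono hP2 hSn hP2n hb hi hF
        rw [hF]
        by_cases h3 : k < M
        · rw [if_pos h3, if_pos (by omega)]; norm_num
        · rw [if_neg h3]
          split_ifs <;> norm_num
    · rcases Nat.lt_or_ge (lv a w) 3 with h3 | h3
      · exact hP2n w (by omega)
      · rw [hP2 w (by omega)]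

end gs

end H45Sch
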