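import Pool.Agent.H45Sch.Final
import Pool.Agent.H45Sch.Key

set_option autoImplicit false
set_option linter.unusedSectionVars false
set_option linter.unusedSimpArgs false

namespace H45Sch

open PowerSeries H42Sch

variable {α : Type} [DecidableEq α] [Fintype α]

section dat

variable {a : α} {n : ℕ} {c P S : MonoidAlgebra ℤ (FreeMonoid α)}

/-- `P` of level at most two, trivial `a`-part of `S`, level of `S` arbitrary -/
theorem deg_two (h : Dat a n c P S) {b : α} (hb : b ≠ a) (hS : aser a (fn S) = 1)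
    (hP2 : ∀ w, 2 < lv a w → fn P w = 0) : (∀ w, 0 ≤ fn P w) ∧ (∀ w, 0 ≤ fn S w) := by
  by_cases hP1 : ∀ u, 2 ≤ lv a u → fn P u = 0
  · exact levOne_gen h hb (Or.inr hS) hP1
  · push Not at hP1
    obtain ⟨u0, hu0, hne0⟩ := hP1
    obtain ⟨Np, hNp⟩ := exists_bound P
    obtain ⟨Ns, hNs⟩ := exists_bound S
    have hF : Gs a n (fn c) (fn P) (fn S) (max Np Ns) := by
      refine ⟨h.nn, h.npos, ?_, dat_P_of h hS, hS,
        fun w hw => ⟨hNp w (le_trans (le_max_left _ _) hw),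
        hNs w (le_trans (le_max_right _ _) hw)⟩⟩
      intro w hw
      have := h.fact w
      rw [if_neg hw, sub_zero] at this
      exact this
    have hSn := hF.S_nonneg hP2 ⟨u0, by omega, hne0⟩ hb
    obtain ⟨K, hK, s, hs, hsne⟩ := h.topS
    have hP2n : ∀ u, lv a u = 2 → 0 ≤ fn P u := by
      intro u hu
      have h1 := h.nn (u ++ b :: s)
      have h2 := hF.fact (u ++ b :: s) (by simp)
      rw [conv_top hb (fn S) hK hs u (fn P) (fun v hv => hP2 v (by omega))] at h2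
      rw [h2] at h1
      have h3 : 0 < fn S s := lt_of_le_of_ne (hSn s) (Ne.symm hsne)
      exact nonneg_of_mul_nonneg_left h1 h3
    exact ⟨hF.P_nonneg hP2 hSn hP2n, hSn⟩

/-- the reversed form -/
theorem deg_two_rev (h : Dat a n c P S) {b : α} (hb : b ≠ a) (hP : aser a (fn P) = 1)
    (hS2 : ∀ w, 2 < lv a w → fn S w = 0) : (∀ w, 0 ≤ fn P w) ∧ (∀ w, 0 ≤ fn S w) := by
  have := deg_two h.rev hb (by rw [aser_rev]; exact hP) (level_rev a S 2 hS2)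
  exact ⟨nn_of_rev this.2, nn_of_rev this.1⟩

lemma one_parts (h : Dat a 1 c P S) : aser a (fn P) = 1 ∧ aser a (fn S) = 1 := by
  obtain ⟨Np, hNp⟩ := exists_bound P
  obtain ⟨Ns, hNs⟩ := exists_bound S
  obtain ⟨p, hp⟩ := exists_poly (aser a (fn P)) Np
    (by intro i hi; rw [coeff_aser]; exact hNp _ (by simpa using hi))
  obtain ⟨s, hs⟩ := exists_poly (aser a (fn S)) Ns
    (by intro i hi; rw [coeff_aser]; exact hNs _ (by simpa using hi))
  have hp0 : p.coeff 0 = 1 := by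
    rw [← Polynomial.coeff_coe, hp, coeff_aser]; exact h.P0
  have hs0 : s.coeff 0 = 1 := by
    rw [← Polynomial.coeff_coe, hs, coeff_aser]; exact h.S0
  have e : p * s * (1 - Polynomial.X) = 1 - Polynomial.X ^ 1 := by
    have h1 := dat_aser h
    rw [← hp, ← hs] at h1
    have h2 : ((p * s * (1 - Polynomial.X) : Polynomial ℤ) : PowerSeries ℤ) =
        ((1 - Polynomial.X ^ 1 : Polynomial ℤ) : PowerSeries ℤ) := by
      push_cast
      exact h1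
    exact Polynomial.coe_injective ℤ h2
  have e1 : p * s = 1 := by
    apply mul_right_cancel₀ X_sub_one_ne
    linear_combination -e
  have hunit : ∀ q : Polynomial ℤ, IsUnit q → q.coeff 0 = 1 → q = 1 := by
    intro q hq hq0
    obtain ⟨r, _, rfl⟩ := Polynomial.isUnit_iff.mp hq
    rw [Polynomial.coeff_C_zero] at hq0
    rw [hq0]; simp
  constructor
  · rw [← hp, hunit p (IsUnit.of_mul_eq_one _ e1) hp0]; simp
  · rw [← hs, hunit s (IsUnit.of_mul_eq_one _ ((mul_comm s p).trans e1)) hs0]; simp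

/-- normalized main theorem -/
theorem main_deg (h : Dat a n c P S) {b : α} (hb : b ≠ a)
    (hA : aser a (fn P) = 1 ∨ aser a (fn S) = 1)
    (hl : (∀ w, fn c w ≠ 0 → lv a w ≤ 5) ∨ (n = 1 ∧ ∀ w, fn c w ≠ 0 → lv a w ≤ 6) ∨
      (∀ u, 2 ≤ lv a u → fn P u = 0) ∨ (∀ u, 2 ≤ lv a u → fn S u = 0) ∨
      (aser a (fn S) = 1 ∧ ∀ u, 3 ≤ lv a u → fn P u = 0) ∨
      (aser a (fn P) = 1 ∧ ∀ u, 3 ≤ lv a u → fn S u = 0)) :
    (∀ w, 0 ≤ fn P w) ∧ (∀ w, 0 ≤ fn S w) := by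
  have hone : (∀ u, 2 ≤ lv a u → fn P u = 0) → (∀ w, 0 ≤ fn P w) ∧ (∀ w, 0 ≤ fn S w) :=
    fun h1 => levOne_gen h hb hA h1
  have htwo : (∀ u, 2 ≤ lv a u → fn S u = 0) → (∀ w, 0 ≤ fn P w) ∧ (∀ w, 0 ≤ fn S w) := by
    intro h1
    have hA' : aser a (fn (rev S)) = 1 ∨ aser a (fn (rev P)) = 1 := by
      rw [aser_rev, aser_rev]; exact hA.symm
    have := levOne_gen h.rev hb hA'
      (fun u hu => level_rev a S 1 (fun w hw => h1 w (by omega)) u (by omega))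
    exact ⟨nn_of_rev this.2, nn_of_rev this.1⟩
  rcases hl with h5 | ⟨hn, h6⟩ | h1 | h1 | ⟨h1, h2⟩ | ⟨h1, h2⟩
  · obtain ⟨p, hp, hpne⟩ := h.topP
    obtain ⟨K, hK, hKne⟩ := h.topS
    have hpK := h.top hb h5 hp hpne hK hKne
    by_cases hp1 : p ≤ 1
    · exact hone (fun u hu => hp u (by omega))
    · by_cases hK1 : K ≤ 1
      · exact htwo (fun u hu => hK u (by omega))
      · rcases hA with h1 | h1
        · exact deg_two_rev h hb h1 (fun w hw => hK w (by omega))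
        · exact deg_two h hb h1 (fun w hw => hp w (by omega))
  · subst hn
    obtain ⟨hP0, hS0⟩ := one_parts h
    obtain ⟨p, hp, hpne⟩ := h.topP
    obtain ⟨K, hK, hKne⟩ := h.topS
    have hpK := h.top hb h6 hp hpne hK hKne
    by_cases hp1 : p ≤ 2
    · exact deg_two h hb hS0 (fun w hw => hp w (by omega))
    · exact deg_two_rev h hb hP0 (fun w hw => hK w (by omega))
  · exact hone h1
  · exact htwo h1
  · exact deg_two h hb h1 (fun w hw => h2 w (by omega))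
  · exact deg_two_rev h hb h1 (fun w hw => h2 w (by omega))

end dat

lemma coeff_conv' (a : α) (d : ℕ) (x : MonoidAlgebra ℤ (FreeMonoid α))
    (hx : ∀ y, x.coeff y ≠ 0 → (y.toList.filter (fun z => z ≠ a)).length ≤ d) :
    ∀ u, d + 1 ≤ lv a u → fn x u = 0 := by
  intro u hu
  by_contra hne
  have := hx _ hne
  rw [lv_eq_filter] at this
  simp only [FreeMonoid.toList_ofList] at this
  omega

/-- normalized form of the hypotheses -/
theorem aux_deg (a : α) (hα : ∃ b : α, b ≠ a)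
    (C : Finset (FreeMonoid α)) (P S : MonoidAlgebra ℤ (FreeMonoid α)) (n : ℕ)
    (h1 : (1 : FreeMonoid α) ∉ C)
    (ha : FreeMonoid.of a ^ n ∈ C)
    (hn : n = 1 ∨ n.Prime ∨ (∀ i : ℕ, 0 < i → P.coeff (FreeMonoid.of a ^ i) = 0) ∨
      (∀ i : ℕ, 0 < i → S.coeff (FreeMonoid.of a ^ i) = 0))
    (hl : (∀ x ∈ C, (x.toList.filter (fun y => y ≠ a)).length ≤ 5) ∨
      (n = 1 ∧ ∀ x ∈ C, (x.toList.filter (fun y => y ≠ a)).length ≤ 6) ∨
      (∀ x, P.coeff x ≠ 0 → (x.toList.filter (fun y => y ≠ a)).length ≤ 1) ∨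
      (∀ x, S.coeff x ≠ 0 → (x.toList.filter (fun y => y ≠ a)).length ≤ 1) ∨
      ((∀ i : ℕ, 0 < i → S.coeff (FreeMonoid.of a ^ i) = 0) ∧
        ∀ x, P.coeff x ≠ 0 → (x.toList.filter (fun y => y ≠ a)).length ≤ 2) ∨
      ((∀ i : ℕ, 0 < i → P.coeff (FreeMonoid.of a ^ i) = 0) ∧
        ∀ x, S.coeff x ≠ 0 → (x.toList.filter (fun y => y ≠ a)).length ≤ 2))
    (E : (∑ x ∈ C, MonoidAlgebra.of ℤ (FreeMonoid α) x) - 1 = P * (Alph α - 1) * S)
    (hP : fn P [] = 1) :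
    ∃ P' S' : Finset (FreeMonoid α), P = ∑ x ∈ P', MonoidAlgebra.of ℤ (FreeMonoid α) x ∧
      S = ∑ x ∈ S', MonoidAlgebra.of ℤ (FreeMonoid α) x := by
  obtain ⟨b, hb⟩ := hα
  have hD := mkDat h1 ha E hP
  have hA : aser a (fn P) = 1 ∨ aser a (fn S) = 1 := by
    rcases hn with hn | hn | hn | hn
    · subst hn
      exact Or.inl (one_parts hD).1
    · exact prime_parts hD hn
    · exact Or.inl (aser_one_of hn hD.P0)
    · exact Or.inr (aser_one_of hn hD.S0)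
  have hl' : (∀ w, fn (∑ x ∈ C, MonoidAlgebra.of ℤ (FreeMonoid α) x) w ≠ 0 → lv a w ≤ 5) ∨
      (n = 1 ∧ ∀ w, fn (∑ x ∈ C, MonoidAlgebra.of ℤ (FreeMonoid α) x) w ≠ 0 → lv a w ≤ 6) ∨
      (∀ u, 2 ≤ lv a u → fn P u = 0) ∨ (∀ u, 2 ≤ lv a u → fn S u = 0) ∨
      (aser a (fn S) = 1 ∧ ∀ u, 3 ≤ lv a u → fn P u = 0) ∨
      (aser a (fn P) = 1 ∧ ∀ u, 3 ≤ lv a u → fn S u = 0) := by
    rcases hl with hl | ⟨h1, hl⟩ | hl | hl | ⟨h1, hl⟩ | ⟨h1, hl⟩
    · exact Or.inl (sum_level hl)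
    · exact Or.inr (Or.inl ⟨h1, sum_level hl⟩)
    · exact Or.inr (Or.inr (Or.inl (coeff_conv' a 1 P hl)))
    · exact Or.inr (Or.inr (Or.inr (Or.inl (coeff_conv' a 1 S hl))))
    · exact Or.inr (Or.inr (Or.inr (Or.inr (Or.inl
        ⟨aser_one_of h1 hD.S0, coeff_conv' a 2 P hl⟩))))
    · exact Or.inr (Or.inr (Or.inr (Or.inr (Or.inr
        ⟨aser_one_of h1 hD.P0, coeff_conv' a 2 S hl⟩))))
  obtain ⟨h5, h6⟩ := main_deg hD hb hA hl'
  exact hD.sets h5 h6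

theorem deg_main (a : α) (hα : ∃ b : α, b ≠ a)
    (C : Finset (FreeMonoid α)) (P S : MonoidAlgebra ℤ (FreeMonoid α)) (n : ℕ)
    (h1 : (1 : FreeMonoid α) ∉ C)
    (ha : FreeMonoid.of a ^ n ∈ C)
    (hn : n = 1 ∨ n.Prime ∨ (∀ i : ℕ, 0 < i → P.coeff (FreeMonoid.of a ^ i) = 0) ∨
      (∀ i : ℕ, 0 < i → S.coeff (FreeMonoid.of a ^ i) = 0))
    (hl : (∀ x ∈ C, (x.toList.filter (fun y => y ≠ a)).length ≤ 5) ∨
      (n = 1 ∧ ∀ x ∈ C, (x.toList.filter (fun y => y ≠ a)).length ≤ 6) ∨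
      (∀ x, P.coeff x ≠ 0 → (x.toList.filter (fun y => y ≠ a)).length ≤ 1) ∨
      (∀ x, S.coeff x ≠ 0 → (x.toList.filter (fun y => y ≠ a)).length ≤ 1) ∨
      ((∀ i : ℕ, 0 < i → S.coeff (FreeMonoid.of a ^ i) = 0) ∧
        ∀ x, P.coeff x ≠ 0 → (x.toList.filter (fun y => y ≠ a)).length ≤ 2) ∨
      ((∀ i : ℕ, 0 < i → P.coeff (FreeMonoid.of a ^ i) = 0) ∧
        ∀ x, S.coeff x ≠ 0 → (x.toList.filter (fun y => y ≠ a)).length ≤ 2))
    (E : (∑ x ∈ C, MonoidAlgebra.of ℤ (FreeMonoid α) x) - 1 = P * (Alph α - 1) * S) :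
    ∃ P' S' : Finset (FreeMonoid α),
      (P = ∑ x ∈ P', MonoidAlgebra.of ℤ (FreeMonoid α) x ∧
        S = ∑ x ∈ S', MonoidAlgebra.of ℤ (FreeMonoid α) x) ∨
      (P = -∑ x ∈ P', MonoidAlgebra.of ℤ (FreeMonoid α) x ∧
        S = -∑ x ∈ S', MonoidAlgebra.of ℤ (FreeMonoid α) x) := by
  rcases cases_int (prod_one (fn_sum_nil h1) E) with ⟨hP, _⟩ | ⟨hP, _⟩
  · obtain ⟨P', S', hP', hS'⟩ := aux_deg a hα C P S n h1 ha hn hl E hP
    exact ⟨P', S', Or.inl ⟨hP', hS'⟩⟩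
  · obtain ⟨P', S', hP', hS'⟩ := aux_deg a hα C (-P) (-S) n h1 ha
      (by simpa using hn) (by simpa using hl) (neg_E E) (by rw [fn_neg, hP]; norm_num)
    exact ⟨P', S', Or.inr ⟨eq_neg_sum hP', eq_neg_sum hS'⟩⟩

end H45Sch
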