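import Pool.Agent.H45Sch.Pos

set_option autoImplicit false
set_option linter.unusedSectionVars false
set_option linter.unusedSimpArgs false

namespace H45Sch

open PowerSeries H42Sch

variable {α : Type} [DecidableEq α] [Fintype α]

section dat

variable {a : α} {n : ℕ} {c P S : MonoidAlgebra ℤ (FreeMonoid α)}

lemma dat_aser (h : Dat a n c P S) :
    aser a (fn P) * aser a (fn S) * (1 - X) = 1 - X ^ n := by
  ext l
  have h1 : coeff l (aser a (fn P) * aser a (fn S) * (1 - X)) =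
      - coeff l (aser a (fn P) * aser a (R (fn S))) := by
    rw [aser_R, ← map_neg]
    congr 1
    ring
  have h2 := h.fact (aw a l)
  rw [conv_aw, h.c_aw] at h2
  have h3 : (aw a l = []) ↔ l = 0 := by
    constructor
    · intro h0
      have := congrArg List.length h0
      simpa using this
    · intro h0; rw [h0]; rfl
  rw [h1, ← h2, map_sub, coeff_one, coeff_X_pow]
  simp only [h3]
  ring

lemma geom_of {V : ℤ⟦X⟧} (h : V * (1 - X) = 1 - X ^ n) : V = ∑ i ∈ Finset.range n, X ^ i := by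
  have h2 : (∑ i ∈ Finset.range n, (X : ℤ⟦X⟧) ^ i) * (1 - X) = 1 - X ^ n := geom_sum_mul_neg _ _
  exact mul_right_cancel₀ one_sub_X_ne (h.trans h2.symm)

lemma dat_P_of (h : Dat a n c P S) (hS : aser a (fn S) = 1) :
    aser a (fn P) = ∑ i ∈ Finset.range n, X ^ i := by
  have h1 := dat_aser h
  rw [hS, mul_one] at h1
  exact geom_of h1

/-- one factor of level at most one -/
theorem levOne_gen (h : Dat a n c P S) {b : α} (hb : b ≠ a)
    (hA : aser a (fn P) = 1 ∨ aser a (fn S) = 1)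
    (hP : ∀ u, 2 ≤ lv a u → fn P u = 0) : (∀ w, 0 ≤ fn P w) ∧ (∀ w, 0 ≤ fn S w) := by
  have hF := h.fac hP
  obtain ⟨K, hK, hKne⟩ := h.topS
  by_cases h0 : ∀ u, 1 ≤ lv a u → fn P u = 0
  · have := hF.level0 hb h0 hK hKne
    exact ⟨this.2, this.1⟩
  · have hPne := hF.exists_level_one h0
    obtain ⟨hP1, hSK⟩ := hF.sign hb hK hKne hPne
    have hP0 : ∀ i, 0 ≤ fn P (aw a i) := by
      intro i
      rcases hA with h1 | h1
      · rw [← coeff_aser a (fn P), h1, coeff_one]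
        split_ifs <;> norm_num
      · rw [← coeff_aser a (fn P), dat_P_of h h1, map_sum]
        apply Finset.sum_nonneg
        intro j _
        rw [coeff_X_pow]
        split_ifs <;> norm_num
    rcases hF.half hb hK hKne hPne with ⟨hS, hS1⟩ | ⟨hPn, hPle⟩
    · exact ⟨hF.P_nonneg hP1 hP0, hS⟩
    · refine ⟨hPn, ?_⟩
      rcases hA with h1 | h1
      · obtain ⟨N, hL, hSN⟩ := levOne_rev hF hPn h1
        have hD := h.rev
        apply nn_of_rev
        refine hL.main hb (c := fn (rev c)) (T := fn (rev S)) hD.nn ?_ ?_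
        · intro w
          rw [hD.fact w]
          congr 1
          have : fn (rev P) = fun w => fn P w.reverse := by
            ext w; rw [fn_rev]
          rw [this]
        · intro w hw
          rw [fn_rev]
          exact hSN _ (by rw [List.length_reverse]; exact hw)
      · exact S_nonneg_of_aserS hF hb hP1 h1

/-- levels two and two, trivial `a`-part of `S` -/
theorem two_gen (h : Dat a n c P S) {b : α} (hb : b ≠ a) (hS : aser a (fn S) = 1)
    (hP2 : ∀ w, 2 < lv a w → fn P w = 0) (hPne : ∃ s, lv a s = 2 ∧ fn P s ≠ 0)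
    (hS2 : ∀ w, 2 < lv a w → fn S w = 0) (hSne : ∃ s, lv a s = 2 ∧ fn S s ≠ 0) :
    (∀ w, 0 ≤ fn P w) ∧ (∀ w, 0 ≤ fn S w) := by
  obtain ⟨Np, hNp⟩ := exists_bound P
  obtain ⟨Ns, hNs⟩ := exists_bound S
  have hF : Fs a n (fn c) (fn P) (fn S) (max Np Ns) := by
    refine ⟨h.nn, h.npos, ?_, dat_P_of h hS, hS, fun u hu => hP2 u (by omega),
      fun u hu => hS2 u (by omega), fun w hw => ⟨hNp w (le_trans (le_max_left _ _) hw),
      hNs w (le_trans (le_max_right _ _) hw)⟩⟩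
    intro w hw
    have := h.fact w
    rw [if_neg hw, sub_zero] at this
    exact this
  exact hF.two_two hb hPne hSne

lemma aser_rev (x : MonoidAlgebra ℤ (FreeMonoid α)) : aser a (fn (rev x)) = aser a (fn x) := by
  ext i
  rw [coeff_aser, coeff_aser, fn_rev, aw_reverse]

/-- normalized main theorem -/
theorem main_gen (h : Dat a n c P S) {b : α} (hb : b ≠ a)
    (hA : aser a (fn P) = 1 ∨ aser a (fn S) = 1)
    (hl : (∀ w, fn c w ≠ 0 → lv a w ≤ 5) ∨ (∀ u, 2 ≤ lv a u → fn P u = 0) ∨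
      (∀ u, 2 ≤ lv a u → fn S u = 0)) : (∀ w, 0 ≤ fn P w) ∧ (∀ w, 0 ≤ fn S w) := by
  have hA' : aser a (fn (rev S)) = 1 ∨ aser a (fn (rev P)) = 1 := by
    rw [aser_rev, aser_rev]; exact hA.symm
  have key : (∀ u, 2 ≤ lv a u → fn P u = 0) ∨ (∀ u, 2 ≤ lv a u → fn S u = 0) ∨
      (((∀ w, 2 < lv a w → fn P w = 0) ∧ (∃ s, lv a s = 2 ∧ fn P s ≠ 0)) ∧
      ((∀ w, 2 < lv a w → fn S w = 0) ∧ (∃ s, lv a s = 2 ∧ fn S s ≠ 0))) := by
    rcases hl with h5 | h5 | h5
    · obtain ⟨p, hp, hpne⟩ := h.topP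
      obtain ⟨K, hK, hKne⟩ := h.topS
      have hpK := h.top hb h5 hp hpne hK hKne
      by_cases hp1 : p ≤ 1
      · exact Or.inl (fun u hu => hp u (by omega))
      · by_cases hK1 : K ≤ 1
        · exact Or.inr (Or.inl (fun u hu => hK u (by omega)))
        · have e1 : p = 2 := by omega
          have e2 : K = 2 := by omega
          subst e1 e2
          exact Or.inr (Or.inr ⟨⟨hp, hpne⟩, ⟨hK, hKne⟩⟩)
    · exact Or.inl h5
    · exact Or.inr (Or.inl h5)
  rcases key with hk | hk | ⟨⟨hp, hpne⟩, ⟨hK, hKne⟩⟩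
  · exact levOne_gen h hb hA hk
  · have := levOne_gen h.rev hb hA' (fun u hu => level_rev a S 1 (fun w hw => hk w (by omega)) u (by omega))
    exact ⟨nn_of_rev this.2, nn_of_rev this.1⟩
  · rcases hA with h1 | h1
    · have := two_gen h.rev hb (by rw [aser_rev]; exact h1) (level_rev a S 2 hK) (level_rev' a S 2 hKne)
        (level_rev a P 2 hp) (level_rev' a P 2 hpne)
      exact ⟨nn_of_rev this.2, nn_of_rev this.1⟩
    · exact two_gen h hb h1 hp hpne hK hKne

lemma prime_parts (h : Dat a n c P S) (hn : n.Prime) :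
    aser a (fn P) = 1 ∨ aser a (fn S) = 1 := by
  obtain ⟨Np, hNp⟩ := exists_bound P
  obtain ⟨Ns, hNs⟩ := exists_bound S
  obtain ⟨p, hp⟩ := exists_poly (aser a (fn P)) Np
    (by intro i hi; rw [coeff_aser]; exact hNp _ (by simpa using hi))
  obtain ⟨s, hs⟩ := exists_poly (aser a (fn S)) Ns
    (by intro i hi; rw [coeff_aser]; exact hNs _ (by simpa using hi))
  have hp0 : p.coeff 0 = 1 := by
    rw [← Polynomial.coeff_coe, hp, coeff_aser]; exact h.P0
  have hs0 : s.coeff 0 = 1 := by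
    rw [← Polynomial.coeff_coe, hs, coeff_aser]; exact h.S0
  have e : p * s * (1 - Polynomial.X) = 1 - Polynomial.X ^ n := by
    have h1 := dat_aser h
    rw [← hp, ← hs] at h1
    have h2 : ((p * s * (1 - Polynomial.X) : Polynomial ℤ) : PowerSeries ℤ) =
        ((1 - Polynomial.X ^ n : Polynomial ℤ) : PowerSeries ℤ) := by
      push_cast
      exact h1
    exact Polynomial.coe_injective ℤ h2
  have := Fact.mk hn
  have e1 : p * s = Polynomial.cyclotomic n ℤ := by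
    have h2 := Polynomial.cyclotomic_prime_mul_X_sub_one ℤ n
    apply mul_right_cancel₀ X_sub_one_ne
    rw [h2]
    linear_combination -e
  have hirr : Irreducible (p * s) := by
    rw [e1]; exact Polynomial.cyclotomic.irreducible hn.pos
  have hunit : ∀ q : Polynomial ℤ, IsUnit q → q.coeff 0 = 1 → q = 1 := by
    intro q hq hq0
    obtain ⟨r, _, rfl⟩ := Polynomial.isUnit_iff.mp hq
    rw [Polynomial.coeff_C_zero] at hq0
    rw [hq0]; simp
  rcases (irreducible_mul_iff.mp hirr) with ⟨_, h2⟩ | ⟨_, h2⟩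
  · right
    rw [← hs, hunit s h2 hs0]; simp
  · left
    rw [← hp, hunit p h2 hp0]; simp

end dat

lemma coeff_conv (a : α) (x : MonoidAlgebra ℤ (FreeMonoid α))
    (hx : ∀ y, x.coeff y ≠ 0 → (y.toList.filter (fun z => z ≠ a)).length ≤ 1) :
    ∀ u, 2 ≤ lv a u → fn x u = 0 := by
  intro u hu
  by_contra hne
  have := hx _ hne
  rw [lv_eq_filter] at this
  simp only [FreeMonoid.toList_ofList] at this
  omega

lemma aser_one_of {a : α} {x : MonoidAlgebra ℤ (FreeMonoid α)}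
    (hx : ∀ i : ℕ, 0 < i → x.coeff (FreeMonoid.of a ^ i) = 0) (h0 : fn x [] = 1) :
    aser a (fn x) = 1 := by
  ext i
  rw [coeff_aser, coeff_one]
  by_cases hi : i = 0
  · rw [if_pos hi, hi]; exact h0
  · rw [if_neg hi, fn, ofList_aw]
    exact hx i (by omega)

/-- normalized form of the hypotheses -/
theorem aux_main (a : α) (hα : ∃ b : α, b ≠ a)
    (C : Finset (FreeMonoid α)) (P S : MonoidAlgebra ℤ (FreeMonoid α)) (n : ℕ)
    (h1 : (1 : FreeMonoid α) ∉ C)
    (ha : FreeMonoid.of a ^ n ∈ C)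
    (hn : n.Prime ∨ (∀ i : ℕ, 0 < i → P.coeff (FreeMonoid.of a ^ i) = 0) ∨
      (∀ i : ℕ, 0 < i → S.coeff (FreeMonoid.of a ^ i) = 0))
    (hl : (∀ x ∈ C, (x.toList.filter (fun y => y ≠ a)).length ≤ 5) ∨
      (∀ x, P.coeff x ≠ 0 → (x.toList.filter (fun y => y ≠ a)).length ≤ 1) ∨
      (∀ x, S.coeff x ≠ 0 → (x.toList.filter (fun y => y ≠ a)).length ≤ 1))
    (E : (∑ x ∈ C, MonoidAlgebra.of ℤ (FreeMonoid α) x) - 1 = P * (Alph α - 1) * S)
    (hP : fn P [] = 1) :
    ∃ P' S' : Finset (FreeMonoid α), P = ∑ x ∈ P', MonoidAlgebra.of ℤ (FreeMonoid α) x ∧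
      S = ∑ x ∈ S', MonoidAlgebra.of ℤ (FreeMonoid α) x := by
  obtain ⟨b, hb⟩ := hα
  have hD := mkDat h1 ha E hP
  have hA : aser a (fn P) = 1 ∨ aser a (fn S) = 1 := by
    rcases hn with hn | hn | hn
    · exact prime_parts hD hn
    · exact Or.inl (aser_one_of hn hD.P0)
    · exact Or.inr (aser_one_of hn hD.S0)
  have hl' : (∀ w, fn (∑ x ∈ C, MonoidAlgebra.of ℤ (FreeMonoid α) x) w ≠ 0 → lv a w ≤ 5) ∨
      (∀ u, 2 ≤ lv a u → fn P u = 0) ∨ (∀ u, 2 ≤ lv a u → fn S u = 0) := by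
    rcases hl with hl | hl | hl
    · exact Or.inl (sum_level hl)
    · exact Or.inr (Or.inl (coeff_conv a P hl))
    · exact Or.inr (Or.inr (coeff_conv a S hl))
  obtain ⟨h5, h6⟩ := main_gen hD hb hA hl'
  exact hD.sets h5 h6

theorem five_main (a : α) (hα : ∃ b : α, b ≠ a)
    (C : Finset (FreeMonoid α)) (P S : MonoidAlgebra ℤ (FreeMonoid α)) (n : ℕ)
    (h1 : (1 : FreeMonoid α) ∉ C)
    (ha : FreeMonoid.of a ^ n ∈ C)
    (hn : n.Prime ∨ (∀ i : ℕ, 0 < i → P.coeff (FreeMonoid.of a ^ i) = 0) ∨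
      (∀ i : ℕ, 0 < i → S.coeff (FreeMonoid.of a ^ i) = 0))
    (hl : (∀ x ∈ C, (x.toList.filter (fun y => y ≠ a)).length ≤ 5) ∨
      (∀ x, P.coeff x ≠ 0 → (x.toList.filter (fun y => y ≠ a)).length ≤ 1) ∨
      (∀ x, S.coeff x ≠ 0 → (x.toList.filter (fun y => y ≠ a)).length ≤ 1))
    (E : (∑ x ∈ C, MonoidAlgebra.of ℤ (FreeMonoid α) x) - 1 = P * (Alph α - 1) * S) :
    ∃ P' S' : Finset (FreeMonoid α),
      (P = ∑ x ∈ P', MonoidAlgebra.of ℤ (FreeMonoid α) x ∧
        S = ∑ x ∈ S', MonoidAlgebra.of ℤ (FreeMonoid α) x) ∨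
      (P = -∑ x ∈ P', MonoidAlgebra.of ℤ (FreeMonoid α) x ∧
        S = -∑ x ∈ S', MonoidAlgebra.of ℤ (FreeMonoid α) x) := by
  rcases cases_int (prod_one (fn_sum_nil h1) E) with ⟨hP, _⟩ | ⟨hP, _⟩
  · obtain ⟨P', S', hP', hS'⟩ := aux_main a hα C P S n h1 ha hn hl E hP
    exact ⟨P', S', Or.inl ⟨hP', hS'⟩⟩
  · obtain ⟨P', S', hP', hS'⟩ := aux_main a hα C (-P) (-S) n h1 ha
      (by simpa using hn) (by simpa using hl) (neg_E E) (by rw [fn_neg, hP]; norm_num)
    exact ⟨P', S', Or.inr ⟨eq_neg_sum hP', eq_neg_sum hS'⟩⟩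

end H45Sch
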