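import Pool.Agent.H45Sch.Two

set_option autoImplicit false
set_option linter.unusedSectionVars false
set_option linter.unusedSimpArgs false

namespace H45Sch

open PowerSeries H42Sch

variable {α : Type} [DecidableEq α]

lemma eval_one_sum (p : Polynomial ℤ) (N : ℕ) (h : ∀ k, N ≤ k → p.coeff k = 0) :
    p.eval 1 = ∑ k ∈ Finset.range (N+1), p.coeff k := by
  have h1 : p.natDegree < N + 1 := by
    by_contra hcon
    push Not at hcon
    have h2 : p.leadingCoeff = 0 := h p.natDegree (by omega)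
    rw [Polynomial.leadingCoeff_eq_zero] at h2
    rw [h2] at hcon
    simp at hcon
  rw [Polynomial.eval_eq_sum_range' h1]
  simp

section fs

variable {a : α} {n : ℕ} {c P S : List α → ℤ} {N : ℕ}

/-- sum lemma -/
lemma Fs.SL (h : Fs a n c P S N) {F : List α → ℤ} (hF : ∀ v, 2 ≤ lv a v → F v = 0)
    (hFN : ∀ v, N ≤ v.length → F v = 0) (hT : ∀ w, 0 ≤ TT S F w)
    {E : ℕ} (hE : ∀ k, F (aw a k) = if k < E then 1 else 0) {b b3 : α} (hb : b ≠ a) (hb3 : b3 ≠ a)
    (i : ℕ) (w : List α)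
    (hfirst : ∀ j, (if i < E then S (abw a b3 j w) else S (abw a b (i - E) (abw a b3 j w))) ≤ 0)
    (hneg : ∀ k, F (abw a b i (aw a k)) ≤ 0) (hne : ∃ k, F (abw a b i (aw a k)) ≠ 0) :
    S w ≤ 0 := by
  obtain ⟨v, g, hv, hg, he, hev⟩ := key_eval (pser a b F i) (bser a b3 S w) (S w) N
    (by
      intro j hj
      rw [coeff_pser]
      exact hFN _ (by simp; omega))
    (by
      intro j hj
      rw [coeff_bser]
      exact (h.fin _ (by simp; omega)).2)
  have h1 : ∀ j, 0 ≤ (v * (Polynomial.C (S w) - (1 - Polynomial.X) * g)).coeff j := by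
    intro j
    rw [← Polynomial.coeff_coe, he, ← bser_R, ← theta_abw hb3]
    have h2 := hT (abw a b i (abw a b3 j w))
    rw [h.T_abw hF hE hb] at h2
    have h3 := hfirst j
    linarith
  have h2 := eval_one_nonneg _ h1
  rw [hev] at h2
  have h4 : 1 ≤ (-v).eval 1 := by
    apply eval_one_pos
    · intro j
      rw [Polynomial.coeff_neg, ← Polynomial.coeff_coe, hv, coeff_pser]
      have := hneg j
      linarith
    · intro h0
      obtain ⟨k, hk⟩ := hne
      apply hk
      rw [← coeff_pser a b F, ← hv, neg_eq_zero.mp h0]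
      simp
  rw [Polynomial.eval_neg] at h4
  by_contra hcon
  push Not at hcon
  nlinarith

lemma Fs.top2 (h : Fs a n c P S N) {b : α} (hb : b ≠ a) {u s : List α} (hu : lv a u = 2)
    (hs : lv a s = 2) : 0 ≤ P u * S s := by
  rw [← conv_top hb S (fun w hw => h.S_lv w hw) hs u P (fun v hv => h.P_lv v (by omega)),
    ← h.fact _ (by simp)]
  exact h.c_nonneg _

lemma level_two {a : α} {u : List α} (hu : lv a u = 2) :
    ∃ b1 m b2 i k, b1 ≠ a ∧ b2 ≠ a ∧ u = abw a b1 m (abw a b2 i (aw a k)) := by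
  obtain ⟨b1, m, v, hb1, rfl, hv⟩ := level_succ hu
  obtain ⟨b2, i, k, hb2, rfl⟩ := level_one hv
  exact ⟨b1, m, b2, i, k, hb1, hb2, rfl⟩

lemma Fs.big (h : Fs a n c P S N) (m : ℕ) :
    m % n < n ∧ N ≤ m % n + (m / n + N) * n ∧ m % n + (m / n) * n = m := by
  have hn := h.npos
  refine ⟨Nat.mod_lt _ (by omega), ?_, ?_⟩
  · have : N ≤ N * n := Nat.le_mul_of_pos_right N (by omega)
    rw [add_mul]; omega
  · have := Nat.mod_add_div m n
    rw [mul_comm] at this
    exact this

/-- common sign -/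
lemma Fs.sign (h : Fs a n c P S N) {b : α} (hb : b ≠ a)
    (hP2 : ∃ u, lv a u = 2 ∧ P u ≠ 0) (hS2 : ∃ s, lv a s = 2 ∧ S s ≠ 0) :
    (∀ u, lv a u = 2 → 0 ≤ P u) ∧ (∀ s, lv a s = 2 → 0 ≤ S s) := by
  obtain ⟨u0, hu0, hPu0⟩ := hP2
  obtain ⟨s0, hs0, hSs0⟩ := hS2
  rcases lt_or_gt_of_ne hPu0 with hneg | hpos
  · exfalso
    have hS : ∀ s, lv a s = 2 → S s ≤ 0 := by
      intro s hs
      have := h.top2 hb hu0 hs
      by_contra hcon
      push Not at hcon
      have := mul_neg_of_neg_of_pos hneg hcon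
      linarith
    have hS0 : S s0 < 0 := lt_of_le_of_ne (hS s0 hs0) hSs0
    have hP : ∀ u, lv a u = 2 → P u ≤ 0 := by
      intro u hu
      have := h.top2 hb hu hs0
      by_contra hcon
      push Not at hcon
      have := mul_neg_of_pos_of_neg hcon hS0
      linarith
    obtain ⟨b1, m, b2, i, k, hb1, hb2, rfl⟩ := level_two hu0
    obtain ⟨hl, hbig, hmod⟩ := h.big m
    set l := m % n with hldef
    set t := m / n + N with ht
    have hT := h.T_nonneg b1 hl (t := t) (Or.inl hbig)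
    have hF2 := h.Ph_lv hb1 l t
    have hFN := h.Ph_fin b1 l t
    obtain ⟨E, hE⟩ := h.shape hFN hT
    have hle : ∀ k, Ph a b1 n P l t (abw a b2 i (aw a k)) ≤ 0 := by
      intro k
      apply Finset.sum_nonpos
      intro j _
      exact hP _ (by rw [lv_abw hb1, lv_abw hb2, lv_aw])
    have hne : ∃ k, Ph a b1 n P l t (abw a b2 i (aw a k)) ≠ 0 := by
      refine ⟨k, ?_⟩
      have hmem : m / n ∈ Finset.range (t+1) := by rw [Finset.mem_range]; omega
      have h1 := Finset.single_le_sum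
        (f := fun j => - P (abw a b1 (l + j*n) (abw a b2 i (aw a k))))
        (s := Finset.range (t+1)) (by
          intro j _
          have := hP (abw a b1 (l + j*n) (abw a b2 i (aw a k)))
            (by rw [lv_abw hb1, lv_abw hb2, lv_aw])
          linarith) hmem
      rw [Finset.sum_neg_distrib] at h1
      simp only [hmod] at h1
      rw [Ph]
      intro h0
      rw [h0] at h1
      linarith
    have hS1 : ∀ w, lv a w = 1 → S w ≤ 0 := by
      intro w hw
      apply h.SL hF2 hFN hT hE hb2 hb i w _ hle hne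
      intro j
      split_ifs
      · exact hS _ (by rw [lv_abw hb, hw])
      · rw [h.S_lv _ (by rw [lv_abw hb2, lv_abw hb, hw])]
    have hS00 : S [] ≤ 0 := by
      apply h.SL hF2 hFN hT hE hb2 hb i [] _ hle hne
      intro j
      split_ifs
      · exact hS1 _ (by rw [lv_abw hb]; simp)
      · exact hS _ (by rw [lv_abw hb2, lv_abw hb]; simp)
    have := h.S_aw 0
    rw [aw_zero] at this
    rw [this] at hS00
    norm_num at hS00
  · have hS : ∀ s, lv a s = 2 → 0 ≤ S s := by
      intro s hs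
      have := h.top2 hb hu0 hs
      exact nonneg_of_mul_nonneg_right this hpos
    have hS0 : 0 < S s0 := lt_of_le_of_ne (hS s0 hs0) (Ne.symm hSs0)
    refine ⟨?_, hS⟩
    intro u hu
    have := h.top2 hb hu hs0
    exact nonneg_of_mul_nonneg_left this hS0

/-- inequality from words of level four -/
lemma Fs.M (h : Fs a n c P S N) {b1 b2 b3 : α} (hb1 : b1 ≠ a) (hb2 : b2 ≠ a) (hb3 : b3 ≠ a)
    (m i : ℕ) {v : List α} (hv : lv a v = 1) :
    0 ≤ P (abw a b1 m (aw a i)) * (∑ k ∈ Finset.range (N+1), S (abw a b3 k v)) +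
      (∑ k ∈ Finset.range (N+1), P (abw a b1 m (abw a b2 i (aw a k)))) * S v := by
  set F : List α → ℤ := fun v => P (abw a b1 m v) with hFdef
  have hF2 : ∀ u, 2 ≤ lv a u → F u = 0 := by
    intro u hu
    exact h.P_lv _ (by rw [lv_abw hb1]; omega)
  obtain ⟨p, g, hp, hg, he, hev⟩ := key_eval (pser a b2 F i) (bser a b3 S v) (S v) N
    (by
      intro j hj
      rw [coeff_pser]
      exact (h.fin _ (by simp; omega)).1)
    (by
      intro j hj
      rw [coeff_bser]
      exact (h.fin _ (by simp; omega)).2)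
  have h1 : ∀ j, c (abw a b1 m (abw a b2 i (abw a b3 j v))) =
      P (abw a b1 m (aw a i)) * S (abw a b3 j v) +
      coeff j (pser a b2 F i * (C (S v) - (1 - X) * bser a b3 S v)) := by
    intro j
    have e1 : lv a (abw a b3 j v) = 2 := by rw [lv_abw hb3, hv]
    rw [h.I1 b1 m, h.S_lv (abw a b2 i (abw a b3 j v)) (by rw [lv_abw hb2, e1]),
      h.S_lv (abw a b1 (m-n) _) (by rw [lv_abw hb1, lv_abw hb2, e1]; omega),
      h.S_lv (abw a b1 m _) (by rw [lv_abw hb1, lv_abw hb2, e1]; omega),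
      conv_abw hb2 i _ F (R S) hF2, bser_R,
      bser_eq_zero hb2 (K := 2) (fun w hw => h.S_lv w hw) (w := abw a b3 j v) (by rw [e1]),
      mul_zero, sub_zero (C (S (abw a b3 j v))), coeff_mul_C, coeff_aser, theta_abw hb3, bser_R]
    simp [hFdef]
  have h2 : ∀ j, 0 ≤ (Polynomial.C (P (abw a b1 m (aw a i))) * g +
      p * (Polynomial.C (S v) - (1 - Polynomial.X) * g)).coeff j := by
    intro j
    rw [Polynomial.coeff_add, Polynomial.coeff_C_mul, ← Polynomial.coeff_coe g, hg,
      ← Polynomial.coeff_coe (p * _), he, coeff_bser, ← h1]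
    exact h.c_nonneg _
  have h3 := eval_one_nonneg _ h2
  rw [Polynomial.eval_add, hev, Polynomial.eval_mul, Polynomial.eval_C] at h3
  have h4 : g.eval 1 = ∑ k ∈ Finset.range (N+1), S (abw a b3 k v) := by
    rw [eval_one_sum g N]
    · apply Finset.sum_congr rfl
      intro k _
      rw [← Polynomial.coeff_coe, hg, coeff_bser]
    · intro k hk
      rw [← Polynomial.coeff_coe, hg, coeff_bser]
      exact (h.fin _ (by simp; omega)).2
  have h5 : p.eval 1 = ∑ k ∈ Finset.range (N+1), P (abw a b1 m (abw a b2 i (aw a k))) := by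
    rw [eval_one_sum p N]
    · apply Finset.sum_congr rfl
      intro k _
      rw [← Polynomial.coeff_coe, hp, coeff_pser]
    · intro k hk
      rw [← Polynomial.coeff_coe, hp, coeff_pser]
      exact (h.fin _ (by simp; omega)).1
  rw [h4, h5] at h3
  exact h3

/-- interval shape of a row of `F` when the a-part of `F` is long -/
lemma Fs.row0 (h : Fs a n c P S N) {F : List α → ℤ} (hF : ∀ v, 2 ≤ lv a v → F v = 0)
    (hFN : ∀ v, N ≤ v.length → F v = 0) (hT : ∀ w, 0 ≤ TT S F w)
    {E : ℕ} (hE : ∀ k, F (aw a k) = if k < E then 1 else 0) {b : α} (hb : b ≠ a)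
    {i : ℕ} (hi : i < E) : ∃ e, ∀ k, coeff k (pser a b F i) =
      (if 0 ≤ k then 1 else 0) - (if e ≤ k then 1 else 0) := by
  obtain ⟨h1, h2⟩ := theta_aw_R h.hS (pser a b F i)
  apply seqG (fun k => coeff k (pser a b F i)) 0 N
  · intro k hk
    rw [coeff_pser]
    exact hFN _ (by simp; omega)
  · have h3 := hT (abw a b i (aw a 0))
    rw [h.T_abw hF hE hb, if_pos hi, h1, h.S_aw] at h3
    simp only [if_true] at h3 ⊢
    linarith
  · intro k
    have h3 := hT (abw a b i (aw a (k+1)))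
    rw [h.T_abw hF hE hb, if_pos hi, h2, h.S_aw] at h3
    simp only [Nat.succ_ne_zero, if_false] at h3 ⊢
    linarith

/-- `S` is nonnegative -/
lemma Fs.S_nonneg (h : Fs a n c P S N) {b : α} (hb : b ≠ a)
    (hP2 : ∃ u, lv a u = 2 ∧ P u ≠ 0) (hP2n : ∀ u, lv a u = 2 → 0 ≤ P u)
    (hS2n : ∀ s, lv a s = 2 → 0 ≤ S s) : ∀ w, 0 ≤ S w := by
  by_contra hcon
  push Not at hcon
  obtain ⟨v0, hv0⟩ := hcon
  have hlv : lv a v0 = 1 := by
    rcases Nat.lt_or_ge (lv a v0) 1 with h1 | h1
    · obtain ⟨k, rfl⟩ := level_zero (a := a) (u := v0) (by omega)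
      rw [h.S_aw] at hv0
      split_ifs at hv0 <;> norm_num at hv0
    · rcases Nat.lt_or_ge (lv a v0) 2 with h2 | h2
      · omega
      · rcases Nat.lt_or_ge (lv a v0) 3 with h3 | h3
        · have := hS2n v0 (by omega)
          linarith
        · rw [h.S_lv v0 h3] at hv0
          exact absurd hv0 (lt_irrefl _)
  obtain ⟨u0, hu0, hPu0⟩ := hP2
  obtain ⟨b1, m0, b2, i0, k0, hb1, hb2, rfl⟩ := level_two hu0
  have hPpos : 1 ≤ P (abw a b1 m0 (abw a b2 i0 (aw a k0))) := by
    have := hP2n _ hu0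
    omega
  set g1 := ∑ k ∈ Finset.range (N+1), S (abw a b k v0) with hg1
  have hg1n : 0 ≤ g1 := Finset.sum_nonneg (fun k _ => hS2n _ (by rw [lv_abw hb, hlv]))
  have hM0 := h.M hb1 hb2 hb m0 i0 hlv
  have hk0 : k0 ∈ Finset.range (N+1) := by
    rw [Finset.mem_range]
    by_contra hlt
    apply hPu0
    exact (h.fin _ (by simp; omega)).1
  have hh1 : 1 ≤ ∑ k ∈ Finset.range (N+1), P (abw a b1 m0 (abw a b2 i0 (aw a k))) := by
    refine le_trans hPpos ?_
    exact Finset.single_le_sum (f := fun k => P (abw a b1 m0 (abw a b2 i0 (aw a k))))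
      (fun k _ => hP2n _ (by rw [lv_abw hb1, lv_abw hb2, lv_aw])) hk0
  have hPg : 0 < P (abw a b1 m0 (aw a i0)) * g1 := by nlinarith
  have hg1p : 0 < g1 := by
    rcases eq_or_lt_of_le hg1n with h1 | h1
    · rw [← h1, mul_zero] at hPg; exact absurd hPg (lt_irrefl _)
    · exact h1
  have hPp : 0 < P (abw a b1 m0 (aw a i0)) := by
    by_contra hcon
    push Not at hcon
    have := mul_nonpos_of_nonpos_of_nonneg hcon hg1n
    linarith
  have hP1 : ∀ m i, 0 ≤ P (abw a b1 m (aw a i)) := by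
    intro m i
    have hM := h.M hb1 hb2 hb m i hlv
    have h1 : 0 ≤ ∑ k ∈ Finset.range (N+1), P (abw a b1 m (abw a b2 i (aw a k))) :=
      Finset.sum_nonneg (fun k _ => hP2n _ (by rw [lv_abw hb1, lv_abw hb2, lv_aw]))
    have h2 : 0 ≤ P (abw a b1 m (aw a i)) * g1 := by nlinarith
    exact nonneg_of_mul_nonneg_left h2 hg1p
  obtain ⟨hl, hbig, hmod⟩ := h.big m0
  set l := m0 % n with hldef
  set t := m0 / n + N with ht
  have hT := h.T_nonneg b1 hl (t := t) (Or.inl hbig)
  have hF2 := h.Ph_lv hb1 l t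
  have hFN := h.Ph_fin b1 l t
  obtain ⟨E, hE⟩ := h.shape hFN hT
  have hEpos : 0 < E := by
    have hmem : m0 / n ∈ Finset.range (t+1) := by rw [Finset.mem_range]; omega
    have h1 := Finset.single_le_sum
      (f := fun j => P (abw a b1 (l + j*n) (aw a i0)))
      (s := Finset.range (t+1)) (fun j _ => hP1 _ _) hmem
    simp only [hmod] at h1
    have h2 := hE i0
    rw [Ph] at h2
    by_contra h0
    rw [if_neg (by omega)] at h2
    omega
  obtain ⟨e, he⟩ := h.row0 hF2 hFN hT hE hb hEpos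
  rcases Nat.eq_zero_or_pos e with he0 | he0
  · have h1 := hT (abw a b 0 v0)
    rw [h.T_abw hF2 hE hb, if_pos hEpos] at h1
    have h2 : pser a b (Ph a b1 n P l t) 0 = 0 := by
      ext k
      rw [he k, he0]; simp
    rw [h2, theta_zero] at h1
    linarith
  · have h1 := hT (abw a b 0 (b :: v0))
    rw [h.T_abw hF2 hE hb, if_pos hEpos, theta, he 0, if_neg hb, R] at h1
    rw [if_pos (le_refl 0), if_neg (by omega)] at h1
    linarith

end fs

end H45Sch
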