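import Pool.Agent.H45Sch.Z

set_option autoImplicit false
set_option linter.unusedSectionVars false
set_option linter.unusedSimpArgs false

namespace H45Sch

open PowerSeries H42Sch

variable {α : Type} [DecidableEq α]

section fac

variable {a : α} {n : ℕ} {c P S : List α → ℤ}

/-- if the `a`-part of `S` is trivial then `S` is nonnegative -/
lemma S_nonneg_of_aserS (h : Fac a n c P S) {b : α} (hb : b ≠ a)
    (hP1 : ∀ u, lv a u = 1 → 0 ≤ P u) (hS : aser a S = 1) : ∀ w, 0 ≤ S w := by
  by_contra hcon
  push Not at hcon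
  obtain ⟨w0, hw0⟩ := hcon
  obtain ⟨N, hN⟩ := h.fin
  have hXs : Xs a n S 0 = invD n := by
    rw [Xs, hS]; ring
  have hXs0 : ∀ t, 0 ≤ coeff t (Xs a n S 0) := by
    intro t
    rw [hXs]
    simp only [invD, coeff_mk]; split_ifs <;> norm_num
  set V := Phi a b n P S 0 N with hV
  have hg : Good a S V := by
    constructor
    · intro i
      rw [hV, Phi, map_sum]
      apply Finset.sum_nonneg
      intro p _
      rw [coeff_C_mul]
      apply mul_nonneg (hXs0 _)
      rw [coeff_pser]
      apply hP1
      rw [lv_abw hb, lv_aw]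
    · intro w
      have h1 := h.T hb 0 N w
      have h2 : 0 ≤ ∑ p ∈ Finset.HasAntidiagonal.antidiagonal N,
          coeff p.1 (Xs a n S 0) * c (abw a b p.2 w) := by
        apply Finset.sum_nonneg
        intro p _
        exact mul_nonneg (hXs0 _) (h.c_nonneg _)
      rw [Y_zero, (hN (abw a b N w) (by simp; omega)).2] at h1
      linarith
  have hV0 : coeff 0 V = 0 := by
    rcases (h.neg_case hP1 ⟨w0, hw0⟩).2.1 V hg with h1 | h1
    · exact h1
    · exact absurd hb (h1 b)
  have hVz : ∀ l, coeff l V = 0 := by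
    intro l
    induction l with
    | zero => exact hV0
    | succ l ih =>
      have h1 := hg.2 (aw a (l+1))
      rw [Y_aw, hS, one_mul, sub_mul, one_mul, map_sub, map_sub, coeff_succ_X_mul, ih,
        coeff_one] at h1
      have h2 := hg.1 (l+1)
      simp at h1
      linarith
  have hVeq : V = 0 := by
    ext l; rw [hVz]; simp
  rw [hVeq] at hg
  have := Fac.good_zero hg w0
  linarith

lemma one_sub_X_ne : (1 - X : ℤ⟦X⟧) ≠ 0 := by
  intro h
  have := congrArg (coeff 0) h
  simp at this

lemma aserS_of (h : Fac a n c P S) (hP : aser a P = 1) :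
    aser a S = ∑ i ∈ Finset.range n, (X : ℤ⟦X⟧) ^ i := by
  have h1 := h.aser_eq
  rw [hP, one_mul] at h1
  have h2 : (∑ i ∈ Finset.range n, (X : ℤ⟦X⟧) ^ i) * (1 - X) = 1 - X ^ n := geom_sum_mul_neg _ _
  exact mul_right_cancel₀ one_sub_X_ne (h1.trans h2.symm)

lemma S_aw_of (h : Fac a n c P S) (hP : aser a P = 1) (k : ℕ) :
    S (aw a k) = if k < n then 1 else 0 := by
  rw [← coeff_aser a S, aserS_of h hP, map_sum]
  simp_rw [coeff_X_pow]
  rw [Finset.sum_ite_eq]
  simp

lemma sum_row (G : ℤ⟦X⟧) (M : ℕ) :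
    ∑ i ∈ Finset.range (M+1), coeff i ((1 - X) * G) = coeff M G := by
  induction M with
  | zero => simp [sub_mul]
  | succ M ih =>
    rw [Finset.sum_range_succ, ih, sub_mul, one_mul, map_sub, coeff_succ_X_mul]
    ring

lemma sum_C (s : ℤ) (M : ℕ) : ∑ i ∈ Finset.range (M+1), coeff i (C s : ℤ⟦X⟧) = s := by
  induction M with
  | zero => simp
  | succ M ih =>
    rw [Finset.sum_range_succ, ih, coeff_C]; simp

/-- column sums of `P` are at most one -/
lemma col_le (h : Fac a n c P S) {b : α} (hb : b ≠ a) (hP : aser a P = 1) {N : ℕ}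
    (hN : ∀ w, N ≤ w.length → P w = 0 ∧ S w = 0) (k : ℕ) :
    ∑ i ∈ Finset.range (N+1), P (abw a b i (aw a k)) ≤ 1 := by
  have hRS : aser a (R S) = X ^ n - 1 := by
    have h1 := h.aser_eq
    rw [hP, one_mul] at h1
    rw [aser_R]
    linear_combination -h1
  have hstep : ∀ k, ∑ i ∈ Finset.range (N+1), P (abw a b i (aw a k)) ≤ (if k < n then 1 else 0) +
      (if n ≤ k then ∑ i ∈ Finset.range (N+1), P (abw a b i (aw a (k-n))) else 0) := by
    intro k
    have h0 : ∀ i, c (abw a b i (aw a k)) = coeff i (C (S (aw a k)) : ℤ⟦X⟧) -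
        coeff i ((1 - X) * bser a b S (aw a k)) +
        ((if n ≤ k then P (abw a b i (aw a (k-n))) else 0) - P (abw a b i (aw a k))) := by
      intro i
      rw [h.c_abw hb, hP, one_mul, map_sub, theta_aw, hRS, mul_sub, mul_one, map_sub,
        coeff_mul_X_pow']
      simp only [coeff_pser]
    have h1 : 0 ≤ ∑ i ∈ Finset.range (N+1), c (abw a b i (aw a k)) :=
      Finset.sum_nonneg (fun i _ => h.c_nonneg _)
    rw [Finset.sum_congr rfl (fun i _ => h0 i), Finset.sum_add_distrib, Finset.sum_sub_distrib,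
      Finset.sum_sub_distrib, sum_C, sum_row, coeff_bser, (hN (abw a b N (aw a k)) (by simp; omega)).2,
      S_aw_of h hP] at h1
    by_cases hk : n ≤ k
    · simp only [if_pos hk] at h1 ⊢
      linarith
    · simp only [if_neg hk, Finset.sum_const_zero] at h1 ⊢
      linarith
  induction k using Nat.strong_induction_on with
  | _ k ih =>
    refine le_trans (hstep k) ?_
    by_cases hk : n ≤ k
    · rw [if_pos hk, if_neg (by omega), zero_add]
      exact ih (k-n) (by have := h.npos; omega)
    · rw [if_neg hk, if_pos (by omega)]; norm_num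

lemma aser_P_one_coeff (hP : aser a P = 1) (i : ℕ) : P (aw a i) = if i = 0 then 1 else 0 := by
  rw [← coeff_aser a P, hP, coeff_one]

lemma aw_reverse (a : α) (i : ℕ) : (aw a i).reverse = aw a i := by simp [aw]

lemma abw_aw_reverse (a b : α) (i m : ℕ) : (abw a b i (aw a m)).reverse = abw a b m (aw a i) := by
  simp [abw, aw]

/-- the level one structure of the reversed left factor -/
lemma levOne_rev (h : Fac a n c P S) (hPnn : ∀ w, 0 ≤ P w) (hP : aser a P = 1) :
    ∃ N, LevOne a (fun w => P w.reverse) N ∧ ∀ w, N ≤ w.length → S w = 0 := by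
  obtain ⟨N, hN⟩ := h.fin
  refine ⟨N, ⟨?_, ?_, ?_, ?_⟩, fun w hw => (hN w hw).2⟩
  · intro i
    rw [aw_reverse]
    exact aser_P_one_coeff hP i
  · intro u hu
    exact h.P_lv _ (by rw [lv_reverse]; exact hu)
  · intro b hb k
    have hcol := col_le h hb hP hN k
    by_cases hz : ∀ m, P (abw a b m (aw a k)) = 0
    · left
      ext m
      rw [coeff_pser, abw_aw_reverse, hz]; simp
    · right
      push Not at hz
      obtain ⟨m, hm⟩ := hz
      refine ⟨m, ?_⟩
      have hmN : ∀ m, P (abw a b m (aw a k)) ≠ 0 → m ∈ Finset.range (N+1) := by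
        intro m hm
        rw [Finset.mem_range]
        by_contra hlt
        exact hm (hN _ (by simp; omega)).1
      ext j
      rw [coeff_pser, abw_aw_reverse, coeff_X_pow]
      by_cases hj : j = m
      · rw [if_pos hj, hj]
        have h1 := Finset.single_le_sum (f := fun i => P (abw a b i (aw a k)))
          (fun i _ => hPnn _) (hmN m hm)
        have h2 := hPnn (abw a b m (aw a k))
        omega
      · rw [if_neg hj]
        by_contra hne
        have h1 := Finset.add_sum_erase (Finset.range (N+1)) (fun i => P (abw a b i (aw a k)))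
          (hmN m hm)
        have h2 := Finset.single_le_sum (f := fun i => P (abw a b i (aw a k)))
          (fun i _ => hPnn _) (Finset.mem_erase.mpr ⟨hj, hmN j hne⟩)
        have h3 := hPnn (abw a b m (aw a k))
        have h4 := hPnn (abw a b j (aw a k))
        omega
  · intro b hb k hk
    ext m
    rw [coeff_pser, abw_aw_reverse, (hN _ (by simp; omega)).1]; simp

/-- trivial or full `a`-parts for prime exponents -/
lemma aser_cases (h : Fac a n c P S) (hn : n.Prime) : aser a P = 1 ∨ aser a S = 1 := by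
  obtain ⟨N, hNN⟩ := h.fin
  obtain ⟨p, hp⟩ := exists_poly (aser a P) N
    (by intro i hi; rw [coeff_aser]; exact (hNN _ (by simpa using hi)).1)
  obtain ⟨s, hs⟩ := exists_poly (aser a S) N
    (by intro i hi; rw [coeff_aser]; exact (hNN _ (by simpa using hi)).2)
  have hp0 : p.coeff 0 = 1 := by
    rw [← Polynomial.coeff_coe, hp, coeff_aser]; exact h.P_nil
  have hs0 : s.coeff 0 = 1 := by
    rw [← Polynomial.coeff_coe, hs, coeff_aser]; exact h.S_nil
  have e : p * s * (1 - Polynomial.X) = 1 - Polynomial.X ^ n := by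
    have h1 := h.aser_eq
    rw [← hp, ← hs] at h1
    have h2 : ((p * s * (1 - Polynomial.X) : Polynomial ℤ) : PowerSeries ℤ) =
        ((1 - Polynomial.X ^ n : Polynomial ℤ) : PowerSeries ℤ) := by
      push_cast
      exact h1
    exact Polynomial.coe_injective ℤ h2
  have := Fact.mk hn
  have e1 : p * s = Polynomial.cyclotomic n ℤ := by
    have h2 := Polynomial.cyclotomic_prime_mul_X_sub_one ℤ n
    apply mul_right_cancel₀ X_sub_one_ne
    rw [h2]
    linear_combination -e
  have hirr : Irreducible (p * s) := by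
    rw [e1]; exact Polynomial.cyclotomic.irreducible hn.pos
  have hunit : ∀ q : Polynomial ℤ, IsUnit q → q.coeff 0 = 1 → q = 1 := by
    intro q hq hq0
    obtain ⟨r, _, rfl⟩ := Polynomial.isUnit_iff.mp hq
    rw [Polynomial.coeff_C_zero] at hq0
    rw [hq0]; simp
  rcases (irreducible_mul_iff.mp hirr) with ⟨_, h2⟩ | ⟨_, h2⟩
  · right
    rw [← hs, hunit s h2 hs0]; simp
  · left
    rw [← hp, hunit p h2 hp0]; simp

end fac

section dat

variable [Fintype α] {a : α} {n : ℕ} {c P S : MonoidAlgebra ℤ (FreeMonoid α)}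

theorem levOne_main (h : Dat a n c P S) {b : α} (hb : b ≠ a) (hn : n.Prime)
    (hP : ∀ u, 2 ≤ lv a u → fn P u = 0) : (∀ w, 0 ≤ fn P w) ∧ (∀ w, 0 ≤ fn S w) := by
  have hF := h.fac hP
  obtain ⟨K, hK, hKne⟩ := h.topS
  by_cases h0 : ∀ u, 1 ≤ lv a u → fn P u = 0
  · have := hF.level0 hb h0 hK hKne
    exact ⟨this.2, this.1⟩
  · have hPne := hF.exists_level_one h0
    obtain ⟨hP1, hSK⟩ := hF.sign hb hK hKne hPne
    have hN : PropN n := by
      have := propN_prime_pow n 1 hn
      rwa [pow_one] at this
    rcases hF.half hb hK hKne hPne with ⟨hS, hS1⟩ | ⟨hPn, hPle⟩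
    · refine ⟨hF.P_nonneg hP1 ?_, hS⟩
      apply (hF.cofactor hN).1
      intro i
      have e1 := hS (aw a i)
      have e2 := hS1 (aw a i)
      omega
    · refine ⟨hPn, ?_⟩
      rcases aser_cases hF hn with h1 | h1
      · obtain ⟨N, hL, hSN⟩ := levOne_rev hF hPn h1
        have hD := h.rev
        apply nn_of_rev
        refine hL.main hb (c := fn (rev c)) (T := fn (rev S)) hD.nn ?_ ?_
        · intro w
          rw [hD.fact w]
          congr 1
          have : fn (rev P) = fun w => fn P w.reverse := by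
            ext w; rw [fn_rev]
          rw [this]
        · intro w hw
          rw [fn_rev]
          exact hSN _ (by rw [List.length_reverse]; exact hw)
      · exact S_nonneg_of_aserS hF hb hP1 h1

end dat

end H45Sch
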