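import Pool.Agent.H45Sch.Five

set_option autoImplicit false
set_option linter.unusedSectionVars false
set_option linter.unusedSimpArgs false

namespace H45Sch

open PowerSeries H42Sch

variable {α : Type} [DecidableEq α]

lemma rr_lt (s : ℤ) (r : ℕ → ℤ) {E j : ℕ} (h : j < E) : rr s r E j = s := by
  rw [rr, if_pos h]

lemma rr_ge (s : ℤ) (r : ℕ → ℤ) {E j : ℕ} (h : E ≤ j) : rr s r E j = r (j - E) := by
  rw [rr, if_neg (by omega)]

section fs

variable {a : α} {n : ℕ} {c P S : List α → ℤ} {N : ℕ}

/-- values of `T` at powers of `a` -/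
lemma Fs.T_aw (h : Fs a n c P S N) {F : List α → ℤ}
    {E : ℕ} (hE : ∀ k, F (aw a k) = if k < E then 1 else 0) (k : ℕ) :
    TT S F (aw a k) = if k = E then 1 else 0 := by
  obtain ⟨h1, h2⟩ := theta_aw_R h.hS (aser a F)
  cases k with
  | zero =>
    rw [TT, conv_aw, ← theta_aw, h1, h.S_aw, coeff_aser, hE]
    by_cases hE0 : E = 0
    · rw [if_pos rfl, if_neg (by omega), if_pos hE0.symm]; ring
    · rw [if_pos rfl, if_pos (by omega), if_neg (by omega)]; ring
  | succ k =>
    rw [TT, conv_aw, ← theta_aw, h2, h.S_aw, coeff_aser, coeff_aser, hE, hE, if_neg (by omega)]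
    by_cases h3 : k + 1 = E
    · rw [if_pos (by omega), if_neg (by omega), if_pos h3]; ring
    · rw [if_neg h3]
      by_cases h4 : k < E
      · rw [if_pos h4, if_pos (by omega)]; ring
      · rw [if_neg h4, if_neg (by omega)]; ring

/-- degree one coefficients of `S` are at most one -/
lemma Fs.S1_le (h : Fs a n c P S N) (hSn : ∀ w, 0 ≤ S w) {w : List α} (hw : lv a w = 1) :
    S w ≤ 1 := by
  obtain ⟨b, m, k, hb, rfl⟩ := level_one hw
  obtain ⟨hl, _, hmod⟩ := h.big m
  have hT := h.T_nonneg b hl (t := m / n) (Or.inr hSn)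
  obtain ⟨E, hE⟩ := h.shape (h.Ph_fin b (m % n) (m / n)) hT
  have h1 := h.T_aw hE k
  rw [h.TU b hl, hmod] at h1
  have h2 : 0 ≤ Ph a b n c (m % n) (m / n) (aw a k) :=
    Finset.sum_nonneg (fun _ _ => h.c_nonneg _)
  split_ifs at h1 <;> omega

/-- `P` is nonnegative in degree one -/
lemma Fs.P1_nonneg (h : Fs a n c P S N) {b : α} (hb : b ≠ a)
    (hP2n : ∀ u, lv a u = 2 → 0 ≤ P u) (hS2 : ∃ s, lv a s = 2 ∧ S s ≠ 0)
    (hSn : ∀ w, 0 ≤ S w) (u : List α) (hu : lv a u = 1) : 0 ≤ P u := by
  obtain ⟨b1, m, k, hb1, rfl⟩ := level_one hu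
  obtain ⟨hl, _, hmod⟩ := h.big m
  set l := m % n with hldef
  by_contra hcon
  push Not at hcon
  rcases Nat.eq_zero_or_pos (m / n) with hz | hz
  · -- `m < n`
    have hT := h.T_nonneg b1 hl (t := 0) (Or.inr hSn)
    obtain ⟨E, hE⟩ := h.shape (h.Ph_fin b1 l 0) hT
    have h1 := hE k
    rw [Ph_zero] at h1
    rw [hz, zero_mul, add_zero] at hmod
    rw [hmod] at h1
    rw [h1] at hcon
    split_ifs at hcon <;> norm_num at hcon
  · obtain ⟨t, ht⟩ : ∃ t, m / n = t + 1 := ⟨m / n - 1, by omega⟩
    rw [ht] at hmod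
    have hT1 := h.T_nonneg b1 hl (t := t+1) (Or.inr hSn)
    have hT0 := h.T_nonneg b1 hl (t := t) (Or.inr hSn)
    obtain ⟨E1, hE1⟩ := h.shape (h.Ph_fin b1 l (t+1)) hT1
    obtain ⟨E0, hE0⟩ := h.shape (h.Ph_fin b1 l t) hT0
    have hE10 : E1 < E0 := by
      have h1 := hE1 k
      rw [Ph_succ, hE0, hmod] at h1
      by_contra h2
      by_cases h3 : k < E0
      · rw [if_pos h3, if_pos (by omega)] at h1
        linarith
      · rw [if_neg h3] at h1
        split_ifs at h1 <;> linarith
    have hF1 := h.Ph_lv hb1 l (t+1)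
    have hF0 := h.Ph_lv hb1 l t
    -- the two rows
    have hv1 : ∀ w, TT S (Ph a b1 n P l (t+1)) (abw a b E1 w) =
        S (b :: w) + theta a w (pser a b (Ph a b1 n P l (t+1)) E1) (R S) := by
      intro w
      rw [h.T_abw hF1 hE1 hb, if_neg (lt_irrefl _), Nat.sub_self, abw_zero]
    have hv0 : ∀ w, TT S (Ph a b1 n P l t) (abw a b E1 w) =
        S w + theta a w (pser a b (Ph a b1 n P l t) E1) (R S) := by
      intro w
      rw [h.T_abw hF0 hE0 hb, if_pos hE10]
    -- comparison in degree at least one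
    have hR : ∀ w, 1 ≤ lv a w → S w + theta a w (pser a b (Ph a b1 n P l t) E1) (R S) ≤
        S (b :: w) + theta a w (pser a b (Ph a b1 n P l (t+1)) E1) (R S) := by
      intro w hw
      rw [← hv1, ← hv0, h.TU b1 hl, h.TU b1 hl, Ph_succ,
        h.S_lv _ (by rw [lv_abw hb1, lv_abw hb]; omega),
        h.S_lv _ (by rw [lv_abw hb1, lv_abw hb]; omega)]
      have := h.c_nonneg (abw a b1 (l + (t+1)*n) (abw a b E1 w))
      linarith
    -- the number `q`
    obtain ⟨q, hq⟩ : ∃ q, ∀ k, S (b :: aw a k) ≤ if k = q then 1 else 0 := by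
      have hT := h.T_nonneg b (l := 0) (by have := h.npos; omega) (t := 0) (Or.inr hSn)
      obtain ⟨q, hq⟩ := h.shape (h.Ph_fin b 0 0) hT
      refine ⟨q, ?_⟩
      intro k
      have h1 := h.T_aw hq k
      rw [h.TU b (by have := h.npos; omega), Ph_zero] at h1
      have h2 := h.c_nonneg (abw a b 0 (aw a k))
      rw [zero_mul, zero_add] at h1
      rw [abw_zero] at h1 h2
      linarith
    -- shape of the rows
    obtain ⟨h1a, h1b⟩ := theta_aw_R h.hS (pser a b (Ph a b1 n P l (t+1)) E1)
    obtain ⟨e, he⟩ := seqG (fun k => coeff k (pser a b (Ph a b1 n P l (t+1)) E1)) q N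
      (by
        intro k hk
        rw [coeff_pser]
        exact h.Ph_fin b1 l (t+1) _ (by simp; omega))
      (by
        have h3 := hT1 (abw a b E1 (aw a 0))
        rw [hv1, h1a] at h3
        have h4 := hq 0
        linarith)
      (by
        intro k
        have h3 := hT1 (abw a b E1 (aw a (k+1)))
        rw [hv1, h1b] at h3
        have h4 := hq (k+1)
        linarith)
    obtain ⟨h0a, h0b⟩ := theta_aw_R h.hS (pser a b (Ph a b1 n P l t) E1)
    obtain ⟨ε, hε⟩ := seqG (fun k => coeff k (pser a b (Ph a b1 n P l t) E1)) 0 N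
      (by
        intro k hk
        rw [coeff_pser]
        exact h.Ph_fin b1 l t _ (by simp; omega))
      (by
        have h3 := hT0 (abw a b E1 (aw a 0))
        rw [hv0, h0a, h.S_aw] at h3
        simp only [if_true] at h3 ⊢
        linarith)
      (by
        intro k
        have h3 := hT0 (abw a b E1 (aw a (k+1)))
        rw [hv0, h0b, h.S_aw] at h3
        simp only [Nat.succ_ne_zero, if_false] at h3 ⊢
        linarith)
    have hge : ∀ k, coeff k (pser a b (Ph a b1 n P l t) E1) ≤
        coeff k (pser a b (Ph a b1 n P l (t+1)) E1) := by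
      intro k
      rw [coeff_pser, coeff_pser, Ph_succ]
      have := hP2n (abw a b1 (l + (t+1)*n) (abw a b E1 (aw a k)))
        (by rw [lv_abw hb1, lv_abw hb, lv_aw])
      linarith
    have hnn1 : ∀ k, 0 ≤ coeff k (pser a b (Ph a b1 n P l (t+1)) E1) := by
      intro k
      rw [coeff_pser]
      apply Finset.sum_nonneg
      intro j _
      exact hP2n _ (by rw [lv_abw hb1, lv_abw hb, lv_aw])
    have hqe : q ≤ e := by
      by_contra hlt
      have h1 := he e
      have h2 := hnn1 e
      rw [if_neg (by omega), if_pos (le_refl _)] at h1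
      linarith
    have hεe : ε ≤ e := by
      by_contra hlt
      have h1 := he e
      have h2 := hε e
      have h3 := hge e
      rw [if_pos (le_refl e)] at h1
      rw [if_pos (Nat.zero_le e), if_neg (by omega)] at h2
      split_ifs at h1 <;> linarith
    have hq0 : q = 0 ∨ ε = 0 := by
      by_contra hno
      push Not at hno
      have h1 := he 0
      have h2 := hε 0
      have h3 := hge 0
      rw [if_neg (by omega)] at h1
      rw [if_pos (Nat.zero_le 0), if_neg (by omega)] at h2
      split_ifs at h1 <;> linarith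
    -- the inequality for rows
    have hrow : ∀ b3, b3 ≠ a → ∀ w j,
        rr (S w) (fun t => S (abw a b3 t w)) q j + rr (S w) (fun t => S (abw a b3 t w)) ε j ≤
        S (b :: abw a b3 j w) + rr (S w) (fun t => S (abw a b3 t w)) e j := by
      intro b3 hb3 w j
      have h1 := hR (abw a b3 j w) (by rw [lv_abw hb3]; omega)
      rw [theta_interval hb3 S j w (fun k => hε k), theta_interval hb3 S j w (fun k => he k)] at h1
      have h2 : rr (S w) (fun t => S (abw a b3 t w)) 0 j = S (abw a b3 j w) := by
        simp [rr]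
      rw [h2] at h1
      linarith
    -- one of the two shifts is trivial; `d` is the other one
    obtain ⟨d, hde, hd0, hrow'⟩ : ∃ d, d ≤ e ∧ (d = 0 → q = 0 ∧ ε = 0) ∧
        ∀ b3, b3 ≠ a → ∀ w j,
        S (abw a b3 j w) + rr (S w) (fun t => S (abw a b3 t w)) d j ≤
        S (b :: abw a b3 j w) + rr (S w) (fun t => S (abw a b3 t w)) e j := by
      rcases hq0 with hq0 | hq0
      · refine ⟨ε, hεe, fun h => ⟨hq0, h⟩, ?_⟩
        intro b3 hb3 w j
        have h1 := hrow b3 hb3 w j
        have h2 : rr (S w) (fun t => S (abw a b3 t w)) q j = S (abw a b3 j w) := by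
          rw [hq0]; simp [rr]
        rw [h2] at h1
        exact h1
      · refine ⟨q, hqe, fun h => ⟨h, hq0⟩, ?_⟩
        intro b3 hb3 w j
        have h1 := hrow b3 hb3 w j
        have h2 : rr (S w) (fun t => S (abw a b3 t w)) ε j = S (abw a b3 j w) := by
          rw [hq0]; simp [rr]
        rw [h2] at h1
        linarith
    -- `d` is positive
    have hdpos : 0 < d := by
      by_contra hd
      have hd' : d = 0 := by omega
      obtain ⟨s, hs, hs0⟩ := hS2
      obtain ⟨b3, j, w, hb3, rfl, hw⟩ := level_succ hs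
      apply hs0
      have hs1 := h.S1_le hSn hw
      have key : ∀ j, S (abw a b3 j w) = 0 := by
        intro j
        induction j using Nat.strong_induction_on with
        | _ j ih =>
          have h1 := hrow' b3 hb3 w j
          have h2 : rr (S w) (fun t => S (abw a b3 t w)) d j = S (abw a b3 j w) := by
            rw [hd']; simp [rr]
          have h3 : S (b :: abw a b3 j w) = 0 :=
            h.S_lv _ (by rw [lv_cons_ne hb, lv_abw hb3, hw])
          have h4 := hSn (abw a b3 j w)
          rw [h2, h3] at h1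
          by_cases hj : j < e
          · rw [rr, if_pos hj] at h1
            omega
          · rw [rr, if_neg hj] at h1
            by_cases he0 : e = 0
            · rw [he0, Nat.sub_zero] at h1
              omega
            · have h5 := ih (j - e) (by omega)
              simp only [h5] at h1
              omega
      exact key j
    -- degree two words starting with a letter different from `a`
    have hA : ∀ b3, b3 ≠ a → ∀ w, lv a w = 1 → S (b3 :: w) = 0 := by
      intro b3 hb3 w hw
      have h1 := hrow' b3 hb3 w 0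
      rw [rr, if_pos hdpos, rr, if_pos (by omega), abw_zero,
        h.S_lv (b :: b3 :: w) (by rw [lv_cons_ne hb, lv_cons_ne hb3, hw])] at h1
      have h2 := hSn (b3 :: w)
      omega
    -- degree one words with a nontrivial tail
    have hB : ∀ b3, b3 ≠ a → ∀ k', 0 < k' → ∀ j, S (abw a b3 j (aw a k')) = 0 := by
      intro b3 hb3 k' hk' j
      have hs : S (aw a k') = 0 := by rw [h.S_aw, if_neg (by omega)]
      induction j using Nat.strong_induction_on with
      | _ j ih =>
        have h1 := hrow' b3 hb3 (aw a k') j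
        have h3 : S (b :: abw a b3 j (aw a k')) = 0 :=
          hA b hb _ (by rw [lv_abw hb3, lv_aw])
        have h4 := hSn (abw a b3 j (aw a k'))
        have h5 : 0 ≤ rr (S (aw a k')) (fun t => S (abw a b3 t (aw a k'))) d j := by
          rw [rr]; split_ifs
          · exact hSn _
          · exact hSn _
        rw [h3] at h1
        by_cases hj : j < e
        · rw [rr_lt _ _ hj] at h1
          linarith
        · rw [rr_ge _ _ (by omega : e ≤ j)] at h1
          have h6 := ih (j - e) (by omega)
          simp only [h6] at h1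
          omega
    -- contradiction
    have hx1 := h.T_aw hE1 E0
    have hx0 := h.T_aw hE0 E0
    rw [if_pos rfl, h.TU b1 hl] at hx0
    rw [if_neg (by omega), h.TU b1 hl, Ph_succ] at hx1
    have hx2 := h.c_nonneg (abw a b1 (l + (t+1)*n) (aw a E0))
    have hx3 := hSn (abw a b1 (l + (t+1)*n) (aw a E0))
    have hx4 := hB b1 hb1 E0 (by omega) (l + t*n)
    rw [hx4] at hx0
    linarith

/-- **levels two and two**, trivial `a`-part of `S` -/
theorem Fs.two_two (h : Fs a n c P S N) {b : α} (hb : b ≠ a)
    (hP2 : ∃ u, lv a u = 2 ∧ P u ≠ 0) (hS2 : ∃ s, lv a s = 2 ∧ S s ≠ 0) :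
    (∀ w, 0 ≤ P w) ∧ (∀ w, 0 ≤ S w) := by
  obtain ⟨hP2n, hS2n⟩ := h.sign hb hP2 hS2
  have hSn := h.S_nonneg hb hP2 hP2n hS2n
  refine ⟨?_, hSn⟩
  intro w
  rcases Nat.lt_or_ge (lv a w) 1 with h1 | h1
  · obtain ⟨k, rfl⟩ := level_zero (a := a) (u := w) (by omega)
    rw [h.P_aw]
    split_ifs <;> norm_num
  · rcases Nat.lt_or_ge (lv a w) 2 with h2 | h2
    · exact h.P1_nonneg hb hP2n hS2 hSn w (by omega)
    · rcases Nat.lt_or_ge (lv a w) 3 with h3 | h3
      · exact hP2n w (by omega)
      · rw [h.P_lv w h3]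

end fs

end H45Sch
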