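import Pool.Agent.H45Sch.LevOne

set_option autoImplicit false
set_option linter.unusedSectionVars false
set_option linter.unusedSimpArgs false

namespace H45Sch

open PowerSeries H42Sch

variable {α : Type} [DecidableEq α]

/-- general convolution at `a^i b w` -/
lemma conv_abw_gen {a b : α} (i : ℕ) (w : List α) (P Q : List α → ℤ) :
    conv (abw a b i w) P Q =
      coeff i (aser a P * bser a b Q w) + conv w (fun v => P (abw a b i v)) Q := by
  induction i generalizing P with
  | zero => simp [conv]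
  | succ i ih =>
    have hs : shift (aser a P) = aser a (fun u => P (a :: u)) := by
      ext; simp [aw_succ]
    rw [abw_succ, conv, ih, coeff_succ_mul, hs]
    simp [abw_succ]; ring

/-- factorizations with trivial `a`-part of `S` and levels at most two -/
structure Fs (a : α) (n : ℕ) (c P S : List α → ℤ) (N : ℕ) : Prop where
  c_nonneg : ∀ w, 0 ≤ c w
  npos : 1 ≤ n
  fact : ∀ w, w ≠ [] → c w = conv w P (R S)
  hP : aser a P = ∑ i ∈ Finset.range n, (X : ℤ⟦X⟧) ^ i
  hS : aser a S = 1
  P_lv : ∀ u, 3 ≤ lv a u → P u = 0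
  S_lv : ∀ u, 3 ≤ lv a u → S u = 0
  fin : ∀ w, N ≤ w.length → P w = 0 ∧ S w = 0

/-- `T_Φ = S + Φ (A - 1) S` -/
def TT (S F : List α → ℤ) (w : List α) : ℤ := S w + conv w F (R S)

/-- partial sums over a residue class -/
def Ph (a b : α) (n : ℕ) (P : List α → ℤ) (l t : ℕ) (v : List α) : ℤ :=
  ∑ j ∈ Finset.range (t+1), P (abw a b (l + j*n) v)

lemma Ph_succ (a b : α) (n : ℕ) (P : List α → ℤ) (l t : ℕ) (v : List α) :
    Ph a b n P l (t+1) v = Ph a b n P l t v + P (abw a b (l + (t+1)*n) v) := by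
  rw [Ph, Finset.sum_range_succ]; rfl

lemma Ph_zero (a b : α) (n : ℕ) (P : List α → ℤ) (l : ℕ) (v : List α) :
    Ph a b n P l 0 v = P (abw a b l v) := by
  simp [Ph]

/-- shifted row -/
def rr (s : ℤ) (r : ℕ → ℤ) (E j : ℕ) : ℤ := if j < E then s else r (j - E)

/-- sequences with one jump -/
lemma seqG (f : ℕ → ℤ) (q N : ℕ) (hN : ∀ k, N ≤ k → f k = 0)
    (h0 : 0 ≤ (if 0 = q then 1 else 0) - f 0)
    (h : ∀ k, 0 ≤ (if k + 1 = q then 1 else 0) + f k - f (k+1)) :
    ∃ e, ∀ k, f k = (if q ≤ k then 1 else 0) - (if e ≤ k then 1 else 0) := by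
  classical
  set g : ℕ → ℤ := fun k => (if q ≤ k then 1 else 0) - f k with hg
  have g0 : 0 ≤ g 0 := by
    have : (if q ≤ 0 then (1:ℤ) else 0) = if 0 = q then 1 else 0 := by
      by_cases hq : q = 0
      · simp [hq]
      · rw [if_neg (by omega), if_neg (by omega)]
    simp only [hg, this]; exact h0
  have gs : ∀ k, g k ≤ g (k+1) := by
    intro k
    have h1 := h k
    have h2 : (if q ≤ k + 1 then (1:ℤ) else 0) = (if q ≤ k then 1 else 0) + if k + 1 = q then 1 else 0 := by
      by_cases h3 : q ≤ k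
      · rw [if_pos (by omega), if_pos h3, if_neg (by omega)]; ring
      · by_cases h4 : k + 1 = q
        · rw [if_pos (by omega), if_neg h3, if_pos h4]; ring
        · rw [if_neg (by omega), if_neg h3, if_neg h4]; ring
    simp only [hg, h2]
    linarith
  have gm : Monotone g := monotone_nat_of_le_succ gs
  have gl : ∀ k, g k ≤ 1 := by
    intro k
    have h1 := gm (show k ≤ k + N + q by omega)
    have h2 : g (k + N + q) = 1 := by
      simp only [hg]
      rw [if_pos (by omega), hN _ (by omega)]; ring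
    linarith
  have hex : ∃ k, 1 ≤ g k := by
    refine ⟨N + q, ?_⟩
    simp only [hg]
    rw [if_pos (by omega), hN _ (by omega)]; norm_num
  refine ⟨Nat.find hex, ?_⟩
  intro k
  have h1 : g k = if Nat.find hex ≤ k then 1 else 0 := by
    by_cases hk : Nat.find hex ≤ k
    · rw [if_pos hk]
      have e1 := Nat.find_spec hex
      have e2 := gm hk
      have e3 := gl k
      linarith
    · rw [if_neg hk]
      have e1 := Nat.find_min hex (m := k) (by omega)
      have e2 := gm (Nat.zero_le k)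
      omega
  simp only [hg] at h1
  linarith

lemma theta_aw_R {a : α} {S : List α → ℤ} (hS : aser a S = 1) (H : ℤ⟦X⟧) :
    theta a (aw a 0) H (R S) = - coeff 0 H ∧
    ∀ k, theta a (aw a (k+1)) H (R S) = coeff k H - coeff (k+1) H := by
  constructor
  · rw [theta_aw, aser_R, hS]; simp
  · intro k
    rw [theta_aw, aser_R, hS, mul_one, mul_sub, map_sub, coeff_succ_mul_X, mul_one]

/-- theta of an interval on a row -/
lemma theta_interval {a b : α} (hb : b ≠ a) (S : List α → ℤ) (j : ℕ) (w : List α) {H : ℤ⟦X⟧}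
    {x y : ℕ} (hH : ∀ k, coeff k H = (if x ≤ k then 1 else 0) - (if y ≤ k then 1 else 0)) :
    theta a (abw a b j w) H (R S) =
      rr (S w) (fun t => S (abw a b t w)) y j - rr (S w) (fun t => S (abw a b t w)) x j := by
  have h1 : (1 - X) * H = X ^ x - X ^ y := by
    ext k
    rw [sub_mul, one_mul, map_sub, map_sub, coeff_X_pow, coeff_X_pow]
    cases k with
    | zero =>
      rw [coeff_zero_X_mul, hH]
      by_cases h1 : x = 0 <;> by_cases h2 : y = 0 <;> simp [h1, h2, Ne.symm]
    | succ k =>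
      rw [coeff_succ_X_mul, hH, hH]
      split_ifs <;> omega
  rw [theta_abw hb, bser_R]
  have h2 : H * (C (S w) - (1 - X) * bser a b S w) =
      H * C (S w) - (X ^ x * bser a b S w - X ^ y * bser a b S w) := by
    rw [← sub_mul, ← h1]; ring
  rw [h2, map_sub, map_sub, coeff_mul_C, coeff_X_pow_mul', coeff_X_pow_mul', hH]
  simp only [coeff_bser, rr]
  by_cases hx : x ≤ j <;> by_cases hy : y ≤ j
  · rw [if_pos hx, if_pos hy, if_pos hx, if_pos hy, if_neg (by omega), if_neg (by omega)]; ring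
  · rw [if_pos hx, if_neg hy, if_pos hx, if_neg hy, if_pos (by omega), if_neg (by omega)]; ring
  · rw [if_neg hx, if_pos hy, if_neg hx, if_pos hy, if_neg (by omega), if_pos (by omega)]; ring
  · rw [if_neg hx, if_neg hy, if_neg hx, if_neg hy, if_pos (by omega), if_pos (by omega)]; ring

section fs

variable {a : α} {n : ℕ} {c P S : List α → ℤ} {N : ℕ}

lemma Fs.P_aw (h : Fs a n c P S N) (k : ℕ) : P (aw a k) = if k < n then 1 else 0 := by
  rw [← coeff_aser a P, h.hP, map_sum]
  simp_rw [coeff_X_pow]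
  rw [Finset.sum_ite_eq]
  simp

lemma Fs.S_aw (h : Fs a n c P S N) (k : ℕ) : S (aw a k) = if k = 0 then 1 else 0 := by
  rw [← coeff_aser a S, h.hS, coeff_one]

lemma Fs.I1 (h : Fs a n c P S N) (b : α) (m : ℕ) (w : List α) :
    c (abw a b m w) = (if m < n then S w else S (abw a b (m - n) w)) - S (abw a b m w) +
      conv w (fun v => P (abw a b m v)) (R S) := by
  rw [h.fact _ (by simp [abw]), conv_abw_gen, bser_R]
  congr 1
  have h2 : (∑ i ∈ Finset.range n, (X : ℤ⟦X⟧) ^ i) * (1 - X) = 1 - X ^ n := geom_sum_mul_neg _ _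
  have h3 : aser a P * (C (S w) - (1 - X) * bser a b S w) =
      aser a P * C (S w) - (bser a b S w - X ^ n * bser a b S w) := by
    have h4 : aser a P * ((1 - X) * bser a b S w) = (1 - X ^ n) * bser a b S w := by
      rw [← mul_assoc, h.hP, h2]
    rw [mul_sub, h4]; ring
  rw [h3, map_sub, map_sub, coeff_mul_C, coeff_X_pow_mul', coeff_aser, h.P_aw]
  simp only [coeff_bser]
  by_cases hm : m < n
  · rw [if_pos hm, if_pos hm, if_neg (by omega)]; ring
  · rw [if_neg hm, if_neg hm, if_pos (by omega)]; ring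

/-- `T = S(a^m b .) + U` -/
lemma Fs.TU (h : Fs a n c P S N) (b : α) {l : ℕ} (hl : l < n) (t : ℕ) (w : List α) :
    TT S (Ph a b n P l t) w = S (abw a b (l + t*n) w) + Ph a b n c l t w := by
  induction t with
  | zero =>
    have h1 := h.I1 b l w
    rw [if_pos hl] at h1
    have h2 : Ph a b n P l 0 = fun v => P (abw a b l v) := by
      ext v; exact Ph_zero ..
    rw [TT, h2, Ph_zero, zero_mul, add_zero]
    linarith
  | succ t ih =>
    have h1 := h.I1 b (l + (t+1)*n) w
    rw [if_neg (by nlinarith)] at h1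
    have h0 : l + (t+1)*n - n = l + t*n := by
      rw [add_mul, one_mul]; omega
    rw [h0] at h1
    have h2 : Ph a b n P l (t+1) = fun v => Ph a b n P l t v + P (abw a b (l + (t+1)*n) v) := by
      ext v; exact Ph_succ ..
    rw [TT, h2, conv_add_left, Ph_succ]
    rw [TT] at ih
    linarith

lemma Fs.T_nonneg (h : Fs a n c P S N) (b : α) {l : ℕ} (hl : l < n) {t : ℕ}
    (ht : N ≤ l + t*n ∨ ∀ w, 0 ≤ S w) (w : List α) : 0 ≤ TT S (Ph a b n P l t) w := by
  rw [h.TU b hl]
  have h1 : 0 ≤ Ph a b n c l t w := Finset.sum_nonneg (fun _ _ => h.c_nonneg _)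
  rcases ht with ht | ht
  · rw [(h.fin _ (by rw [abw_length]; omega)).2]; linarith
  · have := ht (abw a b (l + t*n) w)
    linarith

lemma Fs.Ph_lv (h : Fs a n c P S N) {b : α} (hb : b ≠ a) (l t : ℕ) (v : List α)
    (hv : 2 ≤ lv a v) : Ph a b n P l t v = 0 := by
  apply Finset.sum_eq_zero
  intro j _
  exact h.P_lv _ (by rw [lv_abw hb]; omega)

lemma Fs.Ph_fin (h : Fs a n c P S N) (b : α) (l t : ℕ) (v : List α)
    (hv : N ≤ v.length) : Ph a b n P l t v = 0 := by
  apply Finset.sum_eq_zero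
  intro j _
  exact (h.fin _ (by rw [abw_length]; omega)).1

/-- shape of a-parts -/
lemma Fs.shape (h : Fs a n c P S N) {F : List α → ℤ} (hF : ∀ v, N ≤ v.length → F v = 0)
    (hT : ∀ w, 0 ≤ TT S F w) : ∃ E, ∀ k, F (aw a k) = if k < E then 1 else 0 := by
  obtain ⟨h1, h2⟩ := theta_aw_R h.hS (aser a F)
  obtain ⟨e, he⟩ := seqG (fun k => F (aw a k)) 0 N (fun k hk => hF _ (by simpa using hk))
    (by
      have h3 := hT (aw a 0)
      rw [TT, conv_aw, ← theta_aw, h1, h.S_aw, coeff_aser] at h3
      simp only [if_true] at h3 ⊢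
      linarith)
    (by
      intro k
      have h3 := hT (aw a (k+1))
      rw [TT, conv_aw, ← theta_aw, h2, h.S_aw, coeff_aser, coeff_aser] at h3
      simp only [Nat.succ_ne_zero, if_false] at h3 ⊢
      linarith)
  refine ⟨e, ?_⟩
  intro k
  have h3 := he k
  simp only [Nat.zero_le, if_true] at h3
  rw [h3]
  by_cases hk : k < e
  · rw [if_pos hk, if_neg (by omega)]; ring
  · rw [if_neg hk, if_pos (by omega)]; ring

/-- values of `T` at `a^i b w` -/
lemma Fs.T_abw (h : Fs a n c P S N) {F : List α → ℤ} (hF : ∀ v, 2 ≤ lv a v → F v = 0)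
    {E : ℕ} (hE : ∀ k, F (aw a k) = if k < E then 1 else 0) {b : α} (hb : b ≠ a) (i : ℕ)
    (w : List α) : TT S F (abw a b i w) =
      (if i < E then S w else S (abw a b (i - E) w)) + theta a w (pser a b F i) (R S) := by
  rw [TT, conv_abw hb i w F (R S) hF, bser_R]
  have h1 : aser a F * (1 - X) = 1 - X ^ E := by
    have h2 : (∑ i ∈ Finset.range E, (X : ℤ⟦X⟧) ^ i) * (1 - X) = 1 - X ^ E := geom_sum_mul_neg _ _
    rw [← h2]
    congr 1
    ext k
    rw [coeff_aser, hE, map_sum]
    simp_rw [coeff_X_pow]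
    rw [Finset.sum_ite_eq]
    simp
  have h3 : aser a F * (C (S w) - (1 - X) * bser a b S w) =
      aser a F * C (S w) - (bser a b S w - X ^ E * bser a b S w) := by
    have h4 : aser a F * ((1 - X) * bser a b S w) = (1 - X ^ E) * bser a b S w := by
      rw [← mul_assoc, h1]
    rw [mul_sub, h4]; ring
  rw [h3, map_sub, map_sub, coeff_mul_C, coeff_X_pow_mul', coeff_aser, hE]
  simp only [coeff_bser]
  by_cases hm : i < E
  · rw [if_pos hm, if_pos hm, if_neg (by omega)]; ring
  · rw [if_neg hm, if_neg hm, if_pos (by omega)]; ring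

end fs

end H45Sch
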