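import Pool.Agent.H45Sch.Deg

set_option autoImplicit false
set_option linter.unusedSectionVars false
set_option linter.unusedSimpArgs false

namespace H45Sch

open PowerSeries H42Sch

variable {α : Type} [DecidableEq α]

lemma conv_snoc (x : List α) (y : α) (F G : List α → ℤ) :
    conv (x ++ [y]) F G = conv x F (fun v => G (v ++ [y])) + F (x ++ [y]) * G [] := by
  induction x generalizing F with
  | nil => simp [conv]
  | cons z x ih =>
    rw [List.cons_append, conv, ih, conv]
    simp only [List.cons_append]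
    ring

/-- the functions which can be reached by reading words -/
structure Val (a : α) (S : List α → ℤ) (N d : ℕ) (F : List α → ℤ) : Prop where
  lv : ∀ v, d ≤ lv a v → F v = 0
  fin : ∀ v, N ≤ v.length → F v = 0
  nn : ∀ w, 0 ≤ TT S F w

section gs

variable {a : α} {n : ℕ} {c P S : List α → ℤ} {N : ℕ}

/-- the row of partial sums at an arbitrary exponent -/
def Pr (a b : α) (n : ℕ) (P : List α → ℤ) (i : ℕ) (v : List α) : ℤ :=
  Ph a b n P (i % n) (i / n) v

lemma Gs.T_Pr (h : Gs a n c P S N) (b : α) (i : ℕ) (w : List α) :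
    TT S (Pr a b n P i) w = S (abw a b i w) + Pr a b n c i w := by
  obtain ⟨hl, -, hmod⟩ := h.big i
  have h1 := h.TU b hl (i / n) w
  rw [hmod] at h1
  exact h1

lemma Gs.Pr_c_nonneg (h : Gs a n c P S N) (b : α) (i : ℕ) (w : List α) :
    0 ≤ Pr a b n c i w := by
  rw [Pr, Ph]
  exact Finset.sum_nonneg fun _ _ => h.c_nonneg _

/-- `F(a^i b .) + Pr_i` -/
lemma Gs.T_read (h : Gs a n c P S N) {F : List α → ℤ} (hF : aser a F = 0) (b : α) (i : ℕ)
    (w : List α) : TT S (fun v => F (abw a b i v) + Pr a b n P i v) w =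
      TT S F (abw a b i w) + Pr a b n c i w := by
  have h1 := h.T_Pr b i w
  rw [TT] at h1
  rw [TT, TT, conv_add_left, conv_abw_gen, hF, zero_mul, map_zero]
  linarith

lemma Gs.val_read (h : Gs a n c P S N) {d : ℕ} (hPd : ∀ u, d < lv a u → P u = 0)
    {F : List α → ℤ} (hV : Val a S N d F) (hF : aser a F = 0) {b : α} (hb : b ≠ a) (i : ℕ) :
    Val a S N d (fun v => F (abw a b i v) + Pr a b n P i v) := by
  refine ⟨?_, ?_, ?_⟩
  · intro v hv
    rw [hV.lv _ (by rw [lv_abw hb]; omega), Pr, Gs.Ph_lv hPd hb _ _ v hv, add_zero]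
  · intro v hv
    rw [hV.fin _ (by rw [abw_length]; omega), Pr, h.Ph_fin b _ _ v hv, add_zero]
  · intro w
    rw [h.T_read hF]
    have h1 := hV.nn (abw a b i w)
    have h2 := h.Pr_c_nonneg b i w
    linarith

/-- the first valid function -/
lemma Gs.val_first (h : Gs a n c P S N) {d : ℕ} (hPd : ∀ u, d < lv a u → P u = 0) {b : α}
    (hb : b ≠ a) : Val a S N d (Ph a b n P 0 N) := by
  have hn := h.npos
  refine ⟨fun v hv => Gs.Ph_lv hPd hb _ _ v hv, fun v hv => h.Ph_fin b _ _ v hv, fun w => ?_⟩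
  refine h.T_nonneg b (by omega) (Or.inl ?_) w
  have := Nat.le_mul_of_pos_right N (show 0 < n by omega)
  omega

/-- uniqueness of the valid function if all of them have a trivial `a`-part -/
lemma Gs.uniq_aux (h : Gs a n c P S N) {d : ℕ} (hPd : ∀ u, d < lv a u → P u = 0)
    (hZ : ∀ F, Val a S N d F → aser a F = 0) :
    ∀ (k : ℕ) (v : List α), v.length ≤ k → ∀ F G, Val a S N d F → Val a S N d G →
      F v = G v := by
  intro k
  induction k with
  | zero =>
    intro v hv F G hF hG
    have hv' : v = aw a 0 := List.length_eq_zero_iff.mp (by omega)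
    rw [hv', ← coeff_aser a F, ← coeff_aser a G, hZ F hF, hZ G hG]
  | succ k ih =>
    intro v hv F G hF hG
    rcases word_cases a v with ⟨l, rfl⟩ | ⟨b, i, v', hb, rfl⟩
    · rw [← coeff_aser a F, ← coeff_aser a G, hZ F hF, hZ G hG]
    · have h1 := ih v' (by rw [abw_length] at hv; omega) _ _
        (h.val_read hPd hF (hZ F hF) hb i) (h.val_read hPd hG (hZ G hG) hb i)
      linarith

lemma Gs.Pr_zero_imp (h : Gs a n c P S N) {b : α} (h0 : ∀ i v, Pr a b n P i v = 0) (i : ℕ)
    (v : List α) : P (abw a b i v) = 0 := by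
  have hn := h.npos
  obtain ⟨hl, -, hmod⟩ := h.big i
  rcases Nat.eq_zero_or_pos (i / n) with hz | hz
  · have h1 := h0 i v
    rw [Pr, hz, Ph_zero] at h1
    rw [hz, zero_mul, add_zero] at hmod
    rw [← hmod]; exact h1
  · obtain ⟨t, ht⟩ : ∃ t, i / n = t + 1 := ⟨i / n - 1, by omega⟩
    have h1 := h0 i v
    rw [Pr, ht, Ph_succ] at h1
    rw [ht] at hmod
    rw [hmod] at h1
    have h2 := h0 (i % n + t * n) v
    have e1 : (i % n + t * n) % n = i % n := by
      rw [Nat.add_mul_mod_self_right, Nat.mod_mod]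
    have e2 : (i % n + t * n) / n = t := by
      rw [Nat.add_mul_div_right _ _ (by omega), Nat.div_eq_of_lt hl, zero_add]
    rw [Pr, e1, e2] at h2
    linarith

/-- if all valid functions have a trivial `a`-part then `P` is supported on powers of `a` -/
theorem Gs.uniq (h : Gs a n c P S N) {d : ℕ} (hPd : ∀ u, d < lv a u → P u = 0) {b0 : α}
    (hb0 : b0 ≠ a) (hZ : ∀ F, Val a S N d F → aser a F = 0) :
    ∀ u, 1 ≤ lv a u → P u = 0 := by
  set F0 : List α → ℤ := Ph a b0 n P 0 N with hF0
  have hV : Val a S N d F0 := h.val_first hPd hb0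
  have hcl : ∀ b, b ≠ a → ∀ i v, F0 (abw a b i v) + Pr a b n P i v = F0 v := by
    intro b hb i v
    exact h.uniq_aux hPd hZ v.length v le_rfl _ _ (h.val_read hPd hV (hZ F0 hV) hb i) hV
  -- it suffices to show that `F0 = 0`
  have hred : (∀ v, F0 v = 0) → ∀ u, 1 ≤ lv a u → P u = 0 := by
    intro h0 u hu
    rcases word_cases a u with ⟨l, rfl⟩ | ⟨b, i, v, hb, rfl⟩
    · rw [lv_aw] at hu; omega
    · apply h.Pr_zero_imp
      intro i v
      have h1 := hcl b hb i v
      rw [h0, h0] at h1
      linarith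
  apply hred
  by_contra hcon
  push Not at hcon
  obtain ⟨D, hD, q, hq, hqne⟩ := exists_top a F0 ⟨N, hV.fin⟩ hcon
  -- `S2`
  have hstep : ∀ b, b ≠ a → ∀ i w, TT S F0 (abw a b i w) ≤ TT S F0 w := by
    intro b hb i w
    have h1 := h.T_read (hZ F0 hV) b i w
    have h2 : (fun v => F0 (abw a b i v) + Pr a b n P i v) = F0 := by
      ext v; exact hcl b hb i v
    rw [h2] at h1
    have h3 := h.Pr_c_nonneg b i w
    linarith
  have haw : ∀ k, TT S F0 (aw a k) = S (aw a k) := by
    intro k
    rw [TT, conv_aw, hZ F0 hV, zero_mul, map_zero, add_zero]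
  have hend : ∀ k (w : List α), w.length ≤ k → TT S F0 (w ++ [a]) = 0 := by
    intro k
    induction k with
    | zero =>
      intro w hw
      have hw' : w = [] := List.length_eq_zero_iff.mp (by omega)
      have h1 := haw 1
      rw [h.S_aw, if_neg (by omega)] at h1
      rw [hw']
      exact h1
    | succ k ih =>
      intro w hw
      rcases word_cases a w with ⟨l, rfl⟩ | ⟨b, i, v, hb, rfl⟩
      · have h1 := haw (l + 1)
        rw [h.S_aw, if_neg (by omega)] at h1
        have h2 : aw a l ++ [a] = aw a (l+1) := aw_append_aw a l 1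
        rw [h2]; exact h1
      · rw [abw_append]
        have h1 := ih v (by rw [abw_length] at hw; omega)
        have h2 := hstep b hb i (v ++ [a])
        have h3 := hV.nn (abw a b i (v ++ [a]))
        linarith
  -- the function `v ↦ S (v a)`
  set Sa : List α → ℤ := fun v => S (v ++ [a]) with hSa
  have hS0 : S [] = 1 := by
    have := h.S_aw 0
    simpa using this
  have hkey : ∀ x : List α, TT S F0 (x ++ [a]) = Sa x + conv x F0 (R Sa) + F0 x -
      F0 (x ++ [a]) := by
    intro x
    have h1 : (fun v => R S (v ++ [a])) = fun v => R Sa v + (if v = [] then 1 else 0) := by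
      ext v
      cases v with
      | nil => simp [R, hSa, hS0]; ring
      | cons z v => simp [R, hSa]
    rw [TT, conv_snoc, h1, conv_add_right, conv_delta_right, R, hS0]
    ring
  have hSa0 : ∀ w, Sa w = 0 := by
    by_contra hne
    push Not at hne
    obtain ⟨L, hL, s, hs, hsne⟩ := exists_top a Sa
      ⟨N, fun w hw => (h.fin _ (by simp; omega)).2⟩ hne
    have h1 := hkey (q ++ b0 :: s)
    have e1 : lv a (q ++ b0 :: s) = D + (L + 1) := by
      rw [lv_append, lv_cons_ne hb0, hq, hs]
    have e2 : lv a (q ++ b0 :: s ++ [a]) = D + (L + 1) := by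
      rw [lv_append, e1]
      simp [lv]
    rw [hend _ _ le_rfl, hL _ (by rw [e1]; omega), hD _ (by rw [e1]; omega),
      hD _ (by rw [e2]; omega), conv_top hb0 Sa hL hs q F0 (fun v hv => hD v (by omega))] at h1
    have h2 : F0 q * Sa s = 0 := by linarith
    rcases mul_eq_zero.mp h2 with h3 | h3
    · exact hqne h3
    · exact hsne h3
  have hinv : ∀ x, F0 (x ++ [a]) = F0 x := by
    intro x
    have h1 := hkey x
    have h2 : conv x F0 (R Sa) = 0 := by
      have : R Sa = fun _ => 0 := by
        ext v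
        cases v <;> simp [R, hSa0]
      rw [this, conv_zero_right]
    rw [hend _ _ le_rfl, hSa0, h2] at h1
    linarith
  have hinv' : ∀ k, F0 (q ++ aw a k) = F0 q := by
    intro k
    induction k with
    | zero => rw [aw_zero, List.append_nil]
    | succ k ih =>
      have h2 : aw a (k+1) = aw a k ++ [a] := (aw_append_aw a k 1).symm
      rw [h2, ← List.append_assoc, hinv, ih]
  apply hqne
  rw [← hinv' N]
  exact hV.fin _ (by simp)

/-- a valid function of level at most one with a nontrivial `a`-part -/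
lemma Gs.S_nonneg_of_E (h : Gs a n c P S N) {F : List α → ℤ} (hV : Val a S N 2 F)
    (hne : aser a F ≠ 0) {b : α} (hb : b ≠ a) : ∀ w, 0 ≤ S w := by
  obtain ⟨E, hE⟩ := h.shape hV.fin hV.nn
  have hEpos : 0 < E := by
    by_contra h0
    apply hne
    ext k
    rw [coeff_aser, hE, if_neg (by omega)]; simp
  obtain ⟨e, he⟩ := h.row0 hV.lv hV.fin hV.nn hE hb hEpos
  intro w
  rcases Nat.eq_zero_or_pos e with he0 | he0
  · have h1 := hV.nn (abw a b 0 w)
    rw [h.T_abw hV.lv hE hb, if_pos hEpos] at h1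
    have h2 : pser a b F 0 = 0 := by
      ext k
      rw [he k, he0]; simp
    rw [h2, theta_zero] at h1
    linarith
  · have h1 := hV.nn (abw a b 0 (b :: w))
    rw [h.T_abw hV.lv hE hb, if_pos hEpos, theta, he 0, if_neg hb, R] at h1
    rw [if_pos (le_refl 0), if_neg (by omega)] at h1
    linarith

/-- **positivity of `S`** -/
theorem Gs.S_nonneg (h : Gs a n c P S N) (hP2 : ∀ u, 2 < lv a u → P u = 0)
    (hne : ∃ u, 1 ≤ lv a u ∧ P u ≠ 0) {b : α} (hb : b ≠ a) : ∀ w, 0 ≤ S w := by
  obtain ⟨u, hu, hPu⟩ := hne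
  have h1 : ∃ F, Val a S N 2 F ∧ aser a F ≠ 0 := by
    by_contra hcon
    push Not at hcon
    exact hPu (h.uniq hP2 hb hcon u hu)
  obtain ⟨F, hV, hF⟩ := h1
  exact h.S_nonneg_of_E hV hF hb

end gs

end H45Sch
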