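import Pool.Agent.H42Sch.Final

set_option autoImplicit false
set_option linter.unusedSectionVars false
set_option linter.unusedSimpArgs false

namespace H45Sch

open PowerSeries H42Sch

variable {α : Type} [DecidableEq α]

/-- convolution as a sum over split positions -/
lemma conv_eq_sum (w : List α) (P Q : List α → ℤ) :
    conv w P Q = ∑ i ∈ Finset.range (w.length + 1), P (w.take i) * Q (w.drop i) := by
  induction w generalizing P with
  | nil => simp [conv]
  | cons x w ih =>
    rw [conv, ih, List.length_cons, Finset.sum_range_succ' _ (w.length+1)]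
    simp [add_comm]

/-- the series `Z` with `Q Z = A*` -/
noncomputable def Zf (Q : List α → ℤ) : List α → ℤ
  | [] => 1
  | (x :: w) => 1 - ∑ i ∈ Finset.range (w.length + 1), Q (x :: w.take i) * Zf Q (w.drop i)
termination_by w => w.length
decreasing_by simp [List.length_drop]

lemma conv_Zf (Q : List α → ℤ) (hQ : Q [] = 1) (w : List α) : conv w Q (Zf Q) = 1 := by
  cases w with
  | nil => simp [conv, hQ, Zf]
  | cons x w =>
    rw [conv, hQ, conv_eq_sum, Zf]; ring

lemma conv_smul_left (w : List α) (r : ℤ) (P Q : List α → ℤ) :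
    conv w (fun u => r * P u) Q = r * conv w P Q := by
  induction w generalizing P with
  | nil => simp [conv, mul_assoc]
  | cons x w ih =>
    simp only [conv]
    rw [ih]; ring

lemma conv_assoc (w : List α) (P Q T : List α → ℤ) :
    conv w (fun u => conv u P Q) T = conv w P (fun u => conv u Q T) := by
  induction w generalizing P with
  | nil => simp [conv]; ring
  | cons x w ih =>
    simp only [conv]
    rw [conv_add_left, conv_smul_left, ih]
    ring

lemma conv_sub_left (w : List α) (P P' Q : List α → ℤ) :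
    conv w (fun u => P u - P' u) Q = conv w P Q - conv w P' Q := by
  induction w generalizing P P' with
  | nil => simp [conv, sub_mul]
  | cons x w ih => simp only [conv, ih]; ring

lemma conv_R_left (w : List α) (S Z : List α → ℤ) :
    conv w (R S) Z = R (fun u => conv u S Z) w := by
  cases w with
  | nil => simp [conv, R]
  | cons x w =>
    simp only [conv, R]
    rw [conv_sub_left]
    ring

lemma conv_delta_right (w : List α) (T : List α → ℤ) (r : ℤ) :
    conv w T (fun u => if u = [] then r else 0) = T w * r := by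
  induction w generalizing T with
  | nil => simp [conv]
  | cons x w ih => simp only [conv]; rw [ih]; simp

lemma conv_delta_left (w : List α) (Q : List α → ℤ) :
    conv w (fun t => if t = [] then 1 else 0) Q = Q w := by
  cases w with
  | nil => simp [conv]
  | cons x w =>
    rw [conv, conv_congr_zero w]
    · simp
    · intro u; simp

lemma T_eq {c T Q : List α → ℤ} (hQ : Q [] = 1)
    (hf : ∀ w, c w - (if w = [] then 1 else 0) = conv w T (R Q)) (w : List α) :
    T w = Zf Q w - conv w c (Zf Q) := by
  have e1 : conv w (fun u => c u - (if u = [] then 1 else 0)) (Zf Q) = - T w := by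
    have : (fun u : List α => c u - (if u = [] then 1 else 0)) = fun u => conv u T (R Q) := by
      ext u; exact hf u
    rw [this, conv_assoc]
    have : (fun u => conv u (R Q) (Zf Q)) = fun u => if u = [] then (-1 : ℤ) else 0 := by
      ext u
      rw [conv_R_left]
      have h1 : (fun u => conv u Q (Zf Q)) = fun _ => 1 := by
        ext v; exact conv_Zf Q hQ v
      rw [h1]
      cases u <;> simp [R]
    rw [this, conv_delta_right]
    ring
  rw [conv_sub_left, conv_delta_left] at e1
  linarith

lemma shift_X_pow_succ (m : ℕ) : shift ((X : ℤ⟦X⟧) ^ (m+1)) = X ^ m := by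
  ext j
  rw [coeff_shift, coeff_X_pow, coeff_X_pow]
  simp

lemma shift_one : shift (1 : ℤ⟦X⟧) = 0 := by
  ext j
  rw [coeff_shift, coeff_one]
  simp

lemma theta_X_pow_append (a : α) (m : ℕ) (w : List α) (Z : List α → ℤ) :
    theta a (aw a m ++ w) (X ^ m) Z = Z w := by
  induction m with
  | zero =>
    rw [aw_zero, List.nil_append, pow_zero]
    cases w with
    | nil => simp [theta]
    | cons x w => rw [theta, shift_one, theta_zero]; simp
  | succ m ih =>
    rw [aw_succ, List.cons_append, theta, if_pos rfl, shift_X_pow_succ, ih]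
    simp

lemma theta_X_pow_not (a : α) (m : ℕ) (w : List α) (Z : List α → ℤ) (h : ¬ aw a m <+: w) :
    theta a w (X ^ m) Z = 0 := by
  induction m generalizing w with
  | zero => exact absurd (List.nil_prefix) h
  | succ m ih =>
    cases w with
    | nil => simp [theta]
    | cons x w =>
      rw [theta]
      by_cases hx : x = a
      · rw [if_pos hx, shift_X_pow_succ, ih]
        · simp
        · intro h'
          apply h
          rw [aw_succ, hx]
          exact (List.cons_prefix_cons).mpr ⟨rfl, h'⟩
      · rw [if_neg hx]; simp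

lemma aw_append_abw (a b : α) (l t : ℕ) (x : List α) :
    aw a l ++ abw a b t x = abw a b (l+t) x := by
  rw [aw, abw, abw, ← List.append_assoc, List.replicate_append_replicate]

lemma aw_append_aw (a : α) (l t : ℕ) : aw a l ++ aw a t = aw a (l+t) := by
  rw [aw, aw, aw, List.replicate_append_replicate]

lemma abw_append (a b : α) (l : ℕ) (x y : List α) :
    abw a b l x ++ y = abw a b l (x ++ y) := by
  simp [abw]

/-- hypotheses on the factor of level one with trivial `a`-part -/
structure LevOne (a : α) (Q : List α → ℤ) (N : ℕ) : Prop where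
  q0 : ∀ i, Q (aw a i) = if i = 0 then 1 else 0
  q2 : ∀ u, 2 ≤ lv a u → Q u = 0
  qm : ∀ b, b ≠ a → ∀ k, pser a b Q k = 0 ∨ ∃ m, pser a b Q k = X ^ m
  qN : ∀ b, b ≠ a → ∀ k, N ≤ k → pser a b Q k = 0

section
variable {a : α} {Q : List α → ℤ} {N : ℕ}

lemma LevOne.nil (h : LevOne a Q N) : Q [] = 1 := by
  have := h.q0 0
  simpa using this

lemma LevOne.aser (h : LevOne a Q N) : aser a Q = 1 := by
  ext i
  rw [coeff_aser, h.q0, coeff_one]

lemma LevOne.Z_aw (h : LevOne a Q N) (l : ℕ) : Zf Q (aw a l) = 1 := by
  have h1 := conv_Zf Q h.nil (aw a l)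
  rw [conv_aw, h.aser, one_mul, coeff_aser] at h1
  exact h1

lemma LevOne.Z_abw (h : LevOne a Q N) {b : α} (hb : b ≠ a) (i : ℕ) (w : List α) :
    Zf Q (abw a b i w) = 1 - theta a w (pser a b Q i) (Zf Q) := by
  have h1 := conv_Zf Q h.nil (abw a b i w)
  rw [conv_abw hb i w Q _ h.q2, h.aser, one_mul, coeff_bser] at h1
  linarith

lemma LevOne.Z_one (h : LevOne a Q N) {b : α} (hb : b ≠ a) {i : ℕ} (hp : pser a b Q i = 0)
    (w : List α) : Zf Q (abw a b i w) = 1 := by
  rw [h.Z_abw hb, hp, theta_zero, sub_zero]

lemma LevOne.Z_sub (h : LevOne a Q N) {b : α} (hb : b ≠ a) {i m : ℕ}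
    (hp : pser a b Q i = X ^ m) (w : List α) :
    Zf Q (abw a b i (aw a m ++ w)) = 1 - Zf Q w := by
  rw [h.Z_abw hb, hp, theta_X_pow_append]

lemma LevOne.Z_not (h : LevOne a Q N) {b : α} (hb : b ≠ a) {i m : ℕ}
    (hp : pser a b Q i = X ^ m) {w : List α} (hw : ¬ aw a m <+: w) :
    Zf Q (abw a b i w) = 1 := by
  rw [h.Z_abw hb, hp, theta_X_pow_not a m w _ hw, sub_zero]

lemma LevOne.Z01 (h : LevOne a Q N) : ∀ w, Zf Q w = 0 ∨ Zf Q w = 1 := by
  have key : ∀ k (w : List α), w.length ≤ k → Zf Q w = 0 ∨ Zf Q w = 1 := by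
    intro k
    induction k with
    | zero =>
      intro w hw
      have : w = [] := List.length_eq_zero_iff.mp (by omega)
      right; rw [this, Zf]
    | succ k ih =>
      intro w hw
      rcases word_cases a w with ⟨l, rfl⟩ | ⟨b, l, v, hb, rfl⟩
      · right; exact h.Z_aw l
      · rcases h.qm b hb l with hp | ⟨m, hp⟩
        · right; exact h.Z_one hb hp v
        · by_cases hv : aw a m <+: v
          · obtain ⟨v', rfl⟩ := hv
            rw [h.Z_sub hb hp]
            have := ih v' (by simp at hw; omega)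
            rcases this with h1 | h1
            · right; rw [h1]; ring
            · left; rw [h1]; ring
          · right; exact h.Z_not hb hp hv
  intro w
  exact key w.length w le_rfl

/-- dichotomy -/
lemma LevOne.dich (h : LevOne a Q N) : ∀ v : List α,
    (∀ b, b ≠ a → ∀ x, Zf Q (v ++ b :: x) = Zf Q v) ∨
    ∃ κ, ∀ t b, b ≠ a → ∀ x, Zf Q (abw a b (κ + t) x) = 1 →
      Zf Q (v ++ abw a b t x) = Zf Q v := by
  have key : ∀ k (v : List α), v.length ≤ k →
    (∀ b, b ≠ a → ∀ x, Zf Q (v ++ b :: x) = Zf Q v) ∨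
    ∃ κ, ∀ t b, b ≠ a → ∀ x, Zf Q (abw a b (κ + t) x) = 1 →
      Zf Q (v ++ abw a b t x) = Zf Q v := by
    intro k
    induction k with
    | zero =>
      intro v hv
      have hv' : v = [] := List.length_eq_zero_iff.mp (by omega)
      right
      refine ⟨0, ?_⟩
      intro t b hb x hx
      rw [hv', List.nil_append, ← zero_add t, hx, Zf]
    | succ k ih =>
      intro v hv
      rcases word_cases a v with ⟨l, rfl⟩ | ⟨b', l, v', hb', rfl⟩
      · right
        refine ⟨l, ?_⟩
        intro t b hb x hx
        rw [aw_append_abw, hx, h.Z_aw]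
      · rcases h.qm b' hb' l with hp | ⟨m, hp⟩
        · left
          intro b hb x
          rw [abw_append, h.Z_one hb' hp, h.Z_one hb' hp]
        · by_cases hv1 : aw a m <+: v'
          · obtain ⟨v'', rfl⟩ := hv1
            have hlen : v''.length ≤ k := by simp at hv; omega
            rcases ih v'' hlen with h1 | ⟨κ, h1⟩
            · left
              intro b hb x
              rw [abw_append, List.append_assoc, h.Z_sub hb' hp, h.Z_sub hb' hp, h1 b hb x]
            · right
              refine ⟨κ, ?_⟩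
              intro t b hb x hx
              rw [abw_append, List.append_assoc, h.Z_sub hb' hp, h.Z_sub hb' hp, h1 t b hb x hx]
          · left
            intro b hb x
            rw [abw_append, h.Z_not hb' hp hv1, h.Z_not hb' hp]
            intro hcon
            rcases List.prefix_or_prefix_of_prefix hcon (List.prefix_append v' (b :: x)) with h2 | h2
            · exact hv1 h2
            · obtain ⟨z, hz⟩ := h2
              rw [← hz, List.prefix_append_right_inj] at hcon
              cases z with
              | nil =>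
                apply hv1
                rw [← hz, List.append_nil]
              | cons y z =>
                have hy : y = b := ((List.cons_prefix_cons).mp hcon).1
                have hmem : y ∈ aw a m := by rw [← hz]; simp
                rw [aw] at hmem
                have := List.eq_of_mem_replicate hmem
                exact hb (by rw [← hy, this])
  intro v
  exact key v.length v le_rfl

lemma LevOne.F2 (h : LevOne a Q N) {b : α} (hb : b ≠ a) {k : ℕ} (hk : N ≤ k) (x : List α) :
    Zf Q (abw a b k x) = 1 := h.Z_one hb (h.qN b hb k hk) x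

lemma LevOne.F1 (h : LevOne a Q N) {b0 : α} (hb0 : b0 ≠ a) (κ L : ℕ) :
    ∃ x, Zf Q (abw a b0 κ (x ++ aw a L)) = 1 := by
  by_contra hcon
  push Not at hcon
  rcases h.qm b0 hb0 κ with hp | ⟨m, hp⟩
  · exact hcon [] (h.Z_one hb0 hp _)
  · cases m with
    | zero =>
      have h1 : ∀ x, Zf Q (x ++ aw a L) = 1 := by
        intro x
        have h2 := hcon x
        have h3 := h.Z_sub hb0 hp (x ++ aw a L)
        rw [aw_zero, List.nil_append] at h3
        rw [h3] at h2
        rcases h.Z01 (x ++ aw a L) with h4 | h4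
        · exfalso; apply h2; rw [h4]; ring
        · exact h4
      have h5 := h1 (abw a b0 κ [])
      rw [abw_append] at h5
      exact hcon [] h5
    | succ m =>
      apply hcon [b0]
      apply h.Z_not hb0 hp
      intro h1
      rw [aw_succ, List.cons_append, List.cons_prefix_cons] at h1
      exact hb0 h1.1.symm

/-- two-point lemma -/
lemma LevOne.two (h : LevOne a Q N) {b0 : α} (hb0 : b0 ≠ a) (L : ℕ) (v1 v2 : List α) :
    ∃ x, Zf Q (v1 ++ (x ++ aw a L)) = Zf Q v1 ∧ Zf Q (v2 ++ (x ++ aw a L)) = Zf Q v2 := by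
  rcases h.dich v1 with h1 | ⟨k1, h1⟩ <;> rcases h.dich v2 with h2 | ⟨k2, h2⟩
  · exact ⟨[b0], h1 b0 hb0 _, h2 b0 hb0 _⟩
  · obtain ⟨x, hx⟩ := h.F1 hb0 k2 L
    refine ⟨b0 :: x, h1 b0 hb0 _, ?_⟩
    exact h2 0 b0 hb0 _ hx
  · obtain ⟨x, hx⟩ := h.F1 hb0 k1 L
    refine ⟨b0 :: x, ?_, h2 b0 hb0 _⟩
    exact h1 0 b0 hb0 _ hx
  · refine ⟨abw a b0 N [], ?_, ?_⟩
    · rw [abw_append]
      exact h1 N b0 hb0 _ (h.F2 hb0 (by omega) _)
    · rw [abw_append]
      exact h2 N b0 hb0 _ (h.F2 hb0 (by omega) _)

/-- restriction of a convolution of a long word -/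
lemma conv_ge_restrict (u y : List α) (c Z : List α → ℤ) (hc : ∀ w, 0 ≤ c w) (hZ : ∀ w, 0 ≤ Z w) :
    ∑ i ∈ Finset.range (u.length + 1), c (u.take i) * Z (u.drop i ++ y) ≤ conv (u ++ y) c Z := by
  rw [conv_eq_sum]
  have h1 : ∀ i ∈ Finset.range (u.length + 1), c (u.take i) * Z (u.drop i ++ y) =
      c ((u ++ y).take i) * Z ((u ++ y).drop i) := by
    intro i hi
    have hi' : i ≤ u.length := by
      have := Finset.mem_range.mp hi; omega
    rw [List.take_append_of_le_length hi', List.drop_append_of_le_length hi']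
  rw [Finset.sum_congr rfl h1]
  apply Finset.sum_le_sum_of_subset_of_nonneg
  · intro i hi
    rw [Finset.mem_range] at *
    simp
    omega
  · intro i _ _
    exact mul_nonneg (hc _) (hZ _)

theorem LevOne.main (h : LevOne a Q N) {b0 : α} (hb0 : b0 ≠ a) {c T : List α → ℤ}
    (hc : ∀ w, 0 ≤ c w) (hf : ∀ w, c w - (if w = [] then 1 else 0) = conv w T (R Q))
    (hT : ∀ w, N ≤ w.length → T w = 0) (u : List α) : 0 ≤ T u := by
  have hZ0 : ∀ w, 0 ≤ Zf Q w := by
    intro w
    rcases h.Z01 w with h1 | h1 <;> rw [h1] <;> norm_num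
  have hZ1 : ∀ w, Zf Q w ≤ 1 := by
    intro w
    rcases h.Z01 w with h1 | h1 <;> rw [h1] <;> norm_num
  -- long words
  have hlong : ∀ x, ∑ i ∈ Finset.range (u.length + 1), c (u.take i) * Zf Q (u.drop i ++ (x ++ aw a N)) ≤
      Zf Q (u ++ (x ++ aw a N)) := by
    intro x
    have h1 := conv_ge_restrict u (x ++ aw a N) c (Zf Q) hc hZ0
    have h2 := T_eq h.nil hf (u ++ (x ++ aw a N))
    rw [hT _ (by simp; omega)] at h2
    linarith
  have hone : ∀ x i, i ∈ Finset.range (u.length + 1) →
      c (u.take i) * Zf Q (u.drop i ++ (x ++ aw a N)) ≤ Zf Q (u ++ (x ++ aw a N)) := by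
    intro x i hi
    refine le_trans ?_ (hlong x)
    exact Finset.single_le_sum (f := fun i => c (u.take i) * Zf Q (u.drop i ++ (x ++ aw a N)))
      (fun j _ => mul_nonneg (hc _) (hZ0 _)) hi
  rw [T_eq h.nil hf u, conv_eq_sum]
  by_contra hcon
  push Not at hcon
  set f : ℕ → ℤ := fun i => c (u.take i) * Zf Q (u.drop i) with hfdef
  have hf0 : ∀ i, 0 ≤ f i := fun i => mul_nonneg (hc _) (hZ0 _)
  have hsum : Zf Q u < ∑ i ∈ Finset.range (u.length + 1), f i := by linarith
  -- some positive term
  obtain ⟨i, hi, hfi⟩ : ∃ i ∈ Finset.range (u.length + 1), 0 < f i := by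
    by_contra hno
    push Not at hno
    have := Finset.sum_nonpos hno
    have := hZ0 u
    linarith
  have hZi : Zf Q (u.drop i) = 1 := by
    rcases h.Z01 (u.drop i) with h1 | h1
    · rw [hfdef] at hfi; simp only [h1, mul_zero] at hfi; exact absurd hfi (lt_irrefl _)
    · exact h1
  have hfi' : f i = c (u.take i) := by rw [hfdef]; simp only [hZi, mul_one]
  obtain ⟨x, hx1, hx2⟩ := h.two hb0 N (u.drop i) u
  have h3 := hone x i hi
  rw [hx1, hx2, hZi, mul_one, ← hfi'] at h3
  -- so `Z u = 1` and `f i = 1`
  have hu1 : Zf Q u = 1 := by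
    have := hZ1 u
    omega
  have hfi1 : f i = 1 := by omega
  obtain ⟨j, hj, hfj⟩ : ∃ j ∈ (Finset.range (u.length + 1)).erase i, 0 < f j := by
    by_contra hno
    push Not at hno
    have h4 := Finset.sum_nonpos hno
    have h5 := Finset.add_sum_erase (Finset.range (u.length + 1)) f hi
    linarith
  have hji : j ≠ i := (Finset.mem_erase.mp hj).1
  have hj' := (Finset.mem_erase.mp hj).2
  have hZj : Zf Q (u.drop j) = 1 := by
    rcases h.Z01 (u.drop j) with h1 | h1
    · rw [hfdef] at hfj; simp only [h1, mul_zero] at hfj; exact absurd hfj (lt_irrefl _)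
    · exact h1
  have hfj' : f j = c (u.take j) := by rw [hfdef]; simp only [hZj, mul_one]
  obtain ⟨y, hy1, hy2⟩ := h.two hb0 N (u.drop i) (u.drop j)
  have h6 := hlong y
  have h7 := hZ1 (u ++ (y ++ aw a N))
  set g : ℕ → ℤ := fun i => c (u.take i) * Zf Q (u.drop i ++ (y ++ aw a N)) with hgdef
  have hg0 : ∀ i, 0 ≤ g i := fun i => mul_nonneg (hc _) (hZ0 _)
  have h8 := Finset.add_sum_erase (Finset.range (u.length + 1)) g hi
  have h9 := Finset.single_le_sum (f := g) (s := (Finset.range (u.length + 1)).erase i)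
    (fun k _ => hg0 k) hj
  have h10 : g i = f i := by rw [hgdef, hfdef]; simp only [hy1]
  have h11 : g j = f j := by rw [hgdef, hfdef]; simp only [hy2]
  have h12 : (∑ i ∈ Finset.range (u.length + 1), g i) ≤ 1 := le_trans h6 h7
  omega

end

end H45Sch
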